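import Pool.Agent.Helper53.CTG.Runs
import Pool.Agent.Helper1.TE.Goals3

/-!
# PROJECT CTG (MP_8b4d68_lc): goals

Deliver `Pool/Agent/<Seat>/CTG/XX.lean` with `theorem gXX : GoalXX` (namespace
`Pool.Agent.<Seat>.CTG`). Other goals that are needed are hypotheses of the statement. Everything of
the projects TE and CTR may be used (`Pool/Agent/Helper1/TE/All.lean`,
`Pool/Agent/Helper53/CTR/All.lean` name their packets).
-/

namespace Pool.Agent.Helper53.CTG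

open Pool.Agent.Helper1.TE (Gad app cif ctab bitc seed wN vN addm NumMach codeB word CodeOK
  sym NUnamb USPACE GoalCO GoalCL GoalCD GoalCE GoalCSD GoalCT GoalLSD GoalLCT GoalLCF NTM)
open Pool.Agent.Helper65.LinSpace (dig tab nrec ifz eq01 le01 lt01 capPow Ctx LS)
open Finset

/-! ### A. The algorithm -/

/-- The blocks of a run. -/
def Blocks : Prop := ∀ {Z : Type} (g : Gad Z) (tst : ℕ → ℕ) (t : ℕ → ℕ → ℕ → ℕ → ℕ → ℕ)
  (q c : ℕ) (x : De) (n : ℕ) (γ : ℕ → ℕ) (s s' : (ℕ → Z) × ℕ),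
  Rn g tst t q c x (n + 1) γ s = some s' ↔ ∃ f : ℕ → (ℕ → Z) × ℕ, f 0 = s ∧ f 13 = s' ∧
    ∀ d < 13, Rn g tst t q c (sub q x n d) n (fun τ => γ (d * 13 ^ n + τ)) (f d) =
      some (f (d + 1))

/-- RUN. `runs_blocks` of `Runs.lean` with `m = 13`, `t = 13 ^ n`, and for `τ < 13 ^ n`:
`(d * 13 ^ n + τ) / 13 ^ n = d`, `(d * 13 ^ n + τ) % 13 ^ n = τ` (`runs_congr`). -/
def GoalRUN : Prop := Blocks

/-- Elementary steps and the values of `sub`. -/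
def Elem : Prop :=
  (∀ {Z : Type} (g : Gad Z) (tst : ℕ → ℕ) (t : ℕ → ℕ → ℕ → ℕ → ℕ → ℕ) (q c : ℕ) (x : De)
    (n : ℕ) (γ : ℕ → ℕ) (s s' : (ℕ → Z) × ℕ), (n = 0 ∨ x.k ≠ 0) →
    (Rn g tst t q c x n γ s = some s' ↔ exec g tst t c x (γ 0) s = some s' ∧
      ∀ τ, 0 < τ → τ < 13 ^ n → γ τ = 0)) ∧
  (∀ q m u v i T d : ℕ, 1 ≤ u → u < q →
    sub q (nod v i T) ((q + 1) * m + u) d = phK (3 * (q - (u + 1))) v i T d) ∧
  (∀ q m v i T d : ℕ, 1 ≤ q →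
    sub q (nod v i T) ((q + 1) * m) d = phB q (m % 2) v i T d) ∧
  (∀ q m v i T d : ℕ, sub q (nod v i T) ((q + 1) * m + q) d = phV 0 v i T d) ∧
  (∀ q m u v i T d : ℕ, u ≤ q →
    sub q (0, 1, 0, 0, v, i, T) ((q + 1) * m + u) d = phV (3 * (q - u)) v i T d)

/-- ELE. First part: `n = 0` is one step; for kinds `≠ 0` by induction on `n` with `Blocks`:
`sub q x n 0 = x`, `sub q x n d = idle` for `d ≥ 1`, and `idle` is possible only with the guess `0`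
and changes nothing. The other parts: `n % (q + 1)`, `n / (q + 1)`. (As `Helper51/CTR/ELE.lean`.) -/
def GoalELE : Prop := Blocks → Elem

/-- The common hypotheses on the tables. -/
def TabOK {Z : Type} (g : Gad Z) (t : ℕ → ℕ → ℕ → ℕ → ℕ → ℕ) (c : ℕ) : Prop :=
  (∀ m v x y z, t m v x y z < g.K) ∧ 2 ^ c ≤ g.K

/-- KBX (nodes at the bottom of a block: soundness). `e = 3 (q - 1)`, `By = 3 q + 2 (m % 2)`,
`Bz = By + 1`. Phases of `phB`: 0 guess `a₀`: read `e`, push `l(a₀)` cut (`l = t 0 v _ 0 0`); 1 visit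
of `2 v`, hides in `By` (VX: exact with the value of the top argument); 2 guess `a₂`: test, pop; 3
guess `a₃, y₃`: read `e`, `By`, push `r(a₃, y₃)` cut (`r = t 1 v _ _ 0`); 4 visit of `2 v + 1`, hides
in `Bz`; 5 guess `a₅, y₅`: test, pop; 6 guess `a₆, y₆, z₆`: read `e` once, `By` five times, `Bz` nine
times, apply `T` with `t 2 v a₆ y₆ z₆` to `i`; 7 as 3; 8 visit of `2 v + 1`, undoes in `Bz`; 9 as 5;
10 as 0; 11 visit of `2 v`, undoes in `By`; 12 as 2. FRAME: all visits are exact (VX), so only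
`e, By, Bz, i` change, the contents stay valid, and the stack of arguments is the old one in the end.
`e` is read by `l = [a₀, a₂, a₃, a₅, a₆, a₇, a₉, a₁₀, a₁₂]`. If `x` can be undone in `e` then
all of these are `x` (`sound9`, because `C e = hd x z₀`). Then the arguments in the phases 1, 11 are
`l(x)` cut, so phase 11 undoes `y₀` (the value of phase 1) in `By`, which contains
`shl [y₃, y₅, y₆ (5 times), y₇, y₉] (hd y₀ _)`: all `y` are `y₀`. So the arguments in the phases 4, 8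
are `r(x, y₀)` cut, and phase 8 undoes `z₀'` in `Bz`, which contains `shl [z₆ (9 times)] (hd z₀' _)`:
`z₆ = z₀'`; `By`, `Bz` get their contents back (`ok9`). So `T` was applied with
`t 2 v x y₀ z₀' = ev (q m + 1) v x` (`cut` at the height `q m`: `(q m) % q = 0`). The guesses are
`enc K x 0 0`, `enc K x y₀ 0`, `enc K x y₀ z₀'` at the beginning of the elementary phases and `0` at
their other times, and in the visits those of VX: this is `can` (`n = (q + 1) m`). -/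
def GoalKBX : Prop := Blocks → Elem → ∀ {Z : Type} (g : Gad Z), OK9 g → ∀ (tst : ℕ → ℕ)
  (t : ℕ → ℕ → ℕ → ℕ → ℕ → ℕ) (q c m : ℕ), TabOK g t c → 1 ≤ q →
  VX g tst t q c m → KX g tst t q c m 1

/-- KBC (nodes at the bottom of a block: completeness). As KBX, with the right guesses; the states
`f d` are given explicitly. (As the second part of `Helper24/CTR/KB.lean`.) -/
def GoalKBC : Prop := Blocks → Elem → ∀ {Z : Type} (g : Gad Z), OK9 g → ∀ (tst : ℕ → ℕ)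
  (t : ℕ → ℕ → ℕ → ℕ → ℕ → ℕ) (q c m : ℕ), TabOK g t c → 1 ≤ q →
  VX g tst t q c m → KC g tst t q c m 1

/-- KX (frame and exactness, one level up). Let `e = 3 (q - (u+1))`, so `e + 3 = 3 (q - u)`. The phases
are those of KBX with `By = e + 1`, `Bz = e + 2`, and instead of the stack of arguments the register
`e + 3`: phase 0 hides `l(a₀)` in `e + 3`, phase 2 undoes `l(a₂)` there, phases 3, 7 hide
`r(a, y)`, phases 5, 9 undo it. The child visits (KX for `u`) get their argument hidden in `e + 3`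
(so the hypothesis `C (e+3) = hd _ _` holds). FRAME: child visits do not change the registers
`≤ e + 2` except their target (`e + 1` in the phases 1, 11, `e + 2` in 4, 8), so `e` is read by
`l = [a₀, a₂, a₃, a₅, a₆, a₇, a₉, a₁₀, a₁₂]`, registers `< e` other than `i` do not change, all
contents stay valid, the stack of arguments does not change. EXACTNESS: if `x` can be undone in
`e` then all of `l` are `x` (`sound9`). Phase 2 undoes `l(x)`, which phase 0 has hidden, so the child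
run of phase 1 is exact (KX for `u`, `ev (q m + u)`; no cut: `(q m + u) % q = u ≠ 0`): `e + 1` gets
`hd y₀ _`, `e + 3` its old content back. Phases 10, 11, 12: in the same way phase 11 is exact, so it
undoes `y₀` in `e + 1`, which contains `shl [y₃, y₅, y₆ (5), y₇, y₉] (hd y₀ _)` (`e + 1` is not
changed in the phases 4, 8): all `y` are `y₀`. So the items of the phases 3, 5 are both
`p = r(x, y₀)`, phase 4 is exact (`e + 2` gets `hd z₁ _`, `z₁ = ev (q m + u) (2v+1) p`); phases 7, 9: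
the same, phase 8 is exact and undoes `z₁` in `e + 2`, which contains `shl [z₆ (9)] (hd z₁ _)`:
`z₆ = z₁`. So phase 6 applied `T` with `t 2 v x y₀ z₁ = ev (q m + u + 1) v x`. Everything else is as
before (`ok9`), and the guesses are those of `can` (`n = (q + 1) m + u`,
`n % (q + 1) = u`, `q (n / (q + 1)) + n % (q + 1) = q m + u`). The register `i` is different from
`e, …, e + 3` and is changed only in phase 6: if `i < e` by the frame, otherwise by exactness.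
(As `Helper78/CTR/KX.lean`.) -/
def GoalKX : Prop := Blocks → Elem → ∀ {Z : Type} (g : Gad Z), OK9 g → ∀ (tst : ℕ → ℕ)
  (t : ℕ → ℕ → ℕ → ℕ → ℕ → ℕ) (q c m u : ℕ), TabOK g t c → 1 ≤ u → u < q →
  KX g tst t q c m u → KX g tst t q c m (u + 1)

/-- KC (completeness, one level up). Phases as in KX, all guesses right; the states `f d` are given
explicitly (updates of `C`), with `KC m u` for the phases 1, 4, 8, 11 and `ok9` for the undo
steps. (As `Helper64/CTR/KC.lean`.) -/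
def GoalKC : Prop := Blocks → Elem → ∀ {Z : Type} (g : Gad Z), OK9 g → ∀ (tst : ℕ → ℕ)
  (t : ℕ → ℕ → ℕ → ℕ → ℕ → ℕ) (q c m u : ℕ), TabOK g t c → 1 ≤ u → u < q →
  KC g tst t q c m u → KC g tst t q c m (u + 1)

/-- The visit of a block root, from the visits of nodes at height `u` in a block. -/
def VStep {Z : Type} (g : Gad Z) (tst : ℕ → ℕ) (t : ℕ → ℕ → ℕ → ℕ → ℕ → ℕ) (q c : ℕ) : Prop :=
  ∀ (m u : ℕ), 1 ≤ u → u ≤ q → KX g tst t q c m u → KC g tst t q c m u →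
  ∀ (D : De) (v i T : ℕ), (∀ d < 13, sub q D ((q + 1) * m + u) d = phV (3 * (q - u)) v i T d) →
  BR q (m + 1) i → ∀ (γ : ℕ → ℕ) (C : ℕ → Z) (A : ℕ) (s' : (ℕ → Z) × ℕ),
  (∀ τ, γ τ < g.K ^ 3) → (∀ j, g.V (C j)) →
  (Rn g tst t q c D ((q + 1) * m + u + 1) γ (C, A) = some s' ↔
    (∀ τ < 13 ^ ((q + 1) * m + u + 1), γ τ = if τ / 13 ^ ((q + 1) * m + u) = 1 then
      can g.K t q c ((q + 1) * m + u) v (A % 2 ^ c) (τ % 13 ^ ((q + 1) * m + u)) else 0) ∧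
    ∃ z, app g tst T (ev t q c (q * m + u) v (A % 2 ^ c)) (C i) = some z ∧
      s' = (Function.update C i z, A))

/-- VX. `VX 0`: Elem with `n = 0` (leaf step; the guess is `0`). `VStep`: phase 0 hides
`x = A % 2 ^ c` in the register `e = 3 (q - u)`, phase 1 is the visit with KX (its hypothesis holds:
`z₀` is the old content of `e`), phase 2 undoes `x` in `e`, so phase 1 is exact with the right
guesses, and `e` gets its content back (`ok9`); phases 3 to 12 are idle (guess `0`). From right to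
left: KC. (As `Helper51/CTR/VX.lean`.) -/
def GoalVX : Prop := Blocks → Elem → ∀ {Z : Type} (g : Gad Z), OK9 g → ∀ (tst : ℕ → ℕ)
  (t : ℕ → ℕ → ℕ → ℕ → ℕ → ℕ) (q c : ℕ), TabOK g t c → 1 ≤ q →
  VX g tst t q c 0 ∧ VStep g tst t q c

/-- The right guesses for the whole algorithm. -/
def canR (K : ℕ) (t : ℕ → ℕ → ℕ → ℕ → ℕ → ℕ) (N q c X τ : ℕ) : ℕ :=
  if τ / 13 ^ (Nt N q - 1) = 1 then can K t q c (Nt N q - 1) 1 X (τ % 13 ^ (Nt N q - 1)) else 0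

/-- The algorithm is correct. -/
def AlgOK : Prop := ∀ {Z : Type} (g : Gad Z), OK9 g → ∀ (tst : ℕ → ℕ)
  (t : ℕ → ℕ → ℕ → ℕ → ℕ → ℕ) (N q c : ℕ), TabOK g t c → 1 ≤ q → q ≤ N →
  ∀ (γ : ℕ → ℕ) (C : ℕ → Z) (A : ℕ) (s' : (ℕ → Z) × ℕ), (∀ τ, γ τ < g.K ^ 3) →
  (∀ j, g.V (C j)) →
  (Rn g tst t q c (root N q) (Nt N q) γ (C, A) = some s' ↔
    (∀ τ < 13 ^ Nt N q, γ τ = canR g.K t N q c (A % 2 ^ c) τ) ∧
    ∃ z, app g tst 0 (ev t q c N 1 (A % 2 ^ c)) (C (3 * q + 2 * (Hb N q % 2))) = some z ∧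
      s' = (Function.update C (3 * q + 2 * (Hb N q % 2)) z, A))

/-- ALG (assembly). By induction on `m`: `VX m` for all `m` (`KX m u, KC m u` for `1 ≤ u ≤ q` by
induction on `u` from KBX, KBC, KX, KC; `VX (m+1)` is `VStep` for `u = q`, `D = nod v i T`; here
`can` with `(q+1)(m+1) = (q+1) m + q + 1` digits is by definition the function in `VStep`). Then
`VStep` for `m = (N-1)/q`, `u = (N-1) % q + 1`, `D = root N q`: `q m + u = N`,
`(q+1) m + u + 1 = Nt N q`, `Hb N q = m + 1`. -/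
def GoalALG : Prop := Blocks → Elem → GoalKBX → GoalKBC → GoalKX → GoalKC → GoalVX → AlgOK

/-! ### B. Depths -/

/-- EFF. As `gEFF` in `Helper53/CTR/Small.lean`: cases of `sub`, thirteen terms. -/
def GoalEFF : Prop := ∀ (q : ℕ) (x : De) (n j : ℕ),
  ∑ d ∈ range 13, eff (sub q x n d) j = eff x j

/-- DST (one step). As `Helper59/CTR/DST.lean` (induction on `n`). -/
def GoalDST : Prop := GoalEFF → ∀ (q : ℕ) (x : De) (n τ j : ℕ), τ < 13 ^ n →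
  dep q x n 0 j = 0 ∧
  (τ + 1 < 13 ^ n → dep q x n (τ + 1) j = dep q x n τ j + eff (des q x n τ) j) ∧
  (τ + 1 = 13 ^ n → dep q x n τ j + eff (des q x n τ) j = eff x j)

/-- DBD (bounds). As `Helper9/CTR/DBD.lean`. For `x.k ≠ 0`: `dep q x n τ j` is `0` or `eff x j`. For
`x = nod v i T`, `T ≤ 2`, write `[P]` for `1` if `P` and `0` otherwise. Claim V(m): for
`τ < 13 ^ ((q+1) m)` and `BR q m i`: `-[j = i, T = 2] ≤ dep ≤ m + 1`; claim K(m,u), `1 ≤ u ≤ q`,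
`e = 3 (q - u)`, `n = (q+1) m + u`, `i < e` or `BR q (m+1) i`: `-[j = i, T = 2] ≤ dep`, and
`dep ≤ m + 1 + [T = 1]` for `j = i`, `dep ≤ m + 1` for `j ≠ i` if `j ≤ e` or `BR q (m+1) j`, and
`dep ≤ m + 2` for all other `j`. Induction: V(0): `dep = 0`. K(m,1) from V(m), K(m,u+1) from K(m,u),
V(m+1) from K(m,q), the root from K(m,u), `m = (N-1)/q`, `u = (N-1) % q + 1`. In each case `dep` is the
sum of the effects of the complete phases `< d = τ / 13 ^ n'` (explicit values) and of `dep` of the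
phase `d` (IH or elementary). The root has `T = 0`. -/
def GoalDBD : Prop := ∀ (N q τ j : ℕ), 1 ≤ q → q ≤ N → τ < 13 ^ Nt N q →
  0 ≤ dep q (root N q) (Nt N q) τ j ∧ dep q (root N q) (Nt N q) τ j ≤ Hb N q + 1

/-- WFD. `sub` preserves `WF` (cases), the root has `WF q 2`; then by induction. (As
`Helper15/CTR/WFD.lean`.) -/
def GoalWFD : Prop := (∀ (q V : ℕ) (x : De) (n d : ℕ), 1 ≤ q → WF q V x → d < 13 →
    WF q (2 * V) (sub q x n d)) ∧
  (∀ (q V : ℕ) (x : De) (n τ t : ℕ), 1 ≤ q → WF q V x → t ≤ n →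
    WF q (2 ^ t * V) (dec q x n τ t)) ∧
  ∀ N q : ℕ, 1 ≤ q → WF q 2 (root N q)

/-- DES. As `gDES` in `Helper53/CTR/Small.lean`. -/
def GoalDES : Prop := (∀ {Z : Type} (g : Gad Z) (tst : ℕ → ℕ)
    (t : ℕ → ℕ → ℕ → ℕ → ℕ → ℕ) (q c : ℕ) (x : De) (n τ G : ℕ) (s : (ℕ → Z) × ℕ),
    op g tst t q c x n τ G s = exec g tst t c (des q x n τ) G s) ∧
  ∀ (q : ℕ) (x : De) (n τ : ℕ), τ < 13 ^ n → dec q x n τ n = des q x n τ

/-- The conclusion of DI. -/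
def DIOK : Prop := ∀ {Z : Type} (g : Gad Z),
  OK9 g → ∀ (tst : ℕ → ℕ) (t : ℕ → ℕ → ℕ → ℕ → ℕ → ℕ) (N q c τ A : ℕ) (γ : ℕ → ℕ)
  (C0 C : ℕ → Z), TabOK g t c → 1 ≤ q → q ≤ N → (∀ τ, γ τ < g.K ^ 3) →
  (∀ j, g.V (C0 j) ∧ g.st (C0 j) = 0) → τ < 13 ^ Nt N q →
  runs (op g tst t q c (root N q) (Nt N q)) γ τ (C0, 0) = some (C, A) →
  (∀ j, g.V (C j)) ∧ (∀ j ≤ 3 * q + 3, g.st (C j) < g.G ^ (Hb N q + 1)) ∧
    A < 2 ^ (c * (Hb N q + 2))

/-- DI (bounds along runs). As `Helper67/CTR/DI.lean`. Let `δ j = dep q (root N q) (Nt N q) τ j`. By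
induction on `τ`: all contents are valid, `st (C j) < G ^ (δ j).toNat` for `j ≤ 3q+3`, and
`A < (2 ^ c) ^ ((δ (3q+4)).toNat + 1)`. The kinds `4, 5` have `i = 3q+4` and do not change `st`, the
kinds `0, 2, 3` change `st` only at `i ≤ 3q+3`. (`gA, gY, gZ < K` for `G < K ^ 3`.) -/
def GoalDI : Prop := GoalDST → GoalEFF → GoalDBD → GoalWFD → GoalDES → DIOK

/-! ### C. The gadget -/

/-- SHN. As `gSHN` in `Helper53/CTR/Small.lean`. -/
def GoalSHN : Prop := ∀ (c : ℕ → ℕ → ℕ) (m L R K : ℕ), 1 ≤ R → ∀ (al p : ℕ) (z : ℕ × ℕ),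
  z.1 < (L + R) ^ (m + 2) →
  shl (gad9 c m L R K) (List.replicate al p) z = (shN c m L R al p z.1, z.2)

/-- GA9 (`ok9`). As `Helper38/CTR/GA6.lean`. -/
def GoalGA9 : Prop := GoalSHN → ∀ (c : ℕ → ℕ → ℕ) (m L R K : ℕ), CodeOK c m L R K →
  ∀ p < K, ∀ z : ℕ × ℕ, (gad9 c m (9 * L) R K).V z →
    (gad9 c m (9 * L) R K).un p (shl (gad9 c m (9 * L) R K) (List.replicate 9 p)
      ((gad9 c m (9 * L) R K).hd p z)) = some z

/-- GC9 (`sound9`). As `Helper38/CTR/GC6.lean`. -/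
def GoalGC9 : Prop := ∀ (c : ℕ → ℕ → ℕ) (m L R K : ℕ), CodeOK c m L R K →
  ∀ p < K, ∀ l : List ℕ, l.length = 9 → (∀ a ∈ l, a < K) → ∀ z : ℕ × ℕ,
    (gad9 c m (9 * L) R K).V z →
    ((gad9 c m (9 * L) R K).un p (shl (gad9 c m (9 * L) R K) l
      ((gad9 c m (9 * L) R K).hd p z))).isSome → ∀ a ∈ l, a = p

/-- The gadget of the machine. -/
def gadC (b W : ℕ) : Gad (ℕ × ℕ) := gad9 (cC b W) (4 * b) (36 * b) (Rb b) (2 ^ b)

/-- EOK. As `Helper36/CTR/EOK.lean`. -/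
def GoalEOK : Prop := GoalCO → GoalCL → GoalCD → GoalCE → GoalCSD → GoalSHN → GoalGA9 →
  GoalGC9 → ∀ b W : ℕ, 1 ≤ b → 2 ^ (3 * b) ≤ W → OK9 (gadC b W)

/-- PB (parameters). As `Helper31/CTR/PB.lean`. -/
def GoalPB : Prop := ∀ N q b c : ℕ, 1 ≤ q → q ≤ N → 1 ≤ b → c ≤ b →
  1 ≤ Rb b ∧ Pb b ^ (4 * b + 2) ≤ 2 ^ Eb b ∧ Gb b ^ (Hb N q + 1) ≤ 2 ^ Fb N q b ∧
  (2 ^ Eb b) ^ (3 * q + 4) ≤ 2 ^ Et N q b c ∧ (2 ^ Fb N q b) ^ (3 * q + 4) ≤ 2 ^ Et N q b c ∧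
  2 ^ Eb b ≤ 2 ^ Et N q b c ∧ 2 ^ Fb N q b ≤ 2 ^ Et N q b c ∧ 2 ^ (3 * b) ≤ 2 ^ Et N q b c ∧
  8 ^ b ≤ 2 ^ Et N q b c ∧ 4 ^ b ≤ 2 ^ Et N q b c ∧ 2 ^ b ≤ 2 ^ Et N q b c ∧
  2 ^ c ≤ 2 ^ Et N q b c ∧ 13 ^ Nt N q ≤ 2 ^ Et N q b c ∧
  2 ^ (Nt N q + 1) ≤ 2 ^ Et N q b c ∧ 2 ^ (c * (Hb N q + 2)) ≤ 2 ^ Et N q b c ∧
  Pb b ^ (4 * b + 2) ≤ 2 ^ Et N q b c ∧ 3 * q + 4 < 2 ^ Et N q b c ∧ N < 2 ^ Et N q b c ∧
  b < 2 ^ Et N q b c ∧ c < 2 ^ Et N q b c ∧ 8 < 2 ^ Et N q b c ∧ Nt N q + 4 * b ≤ Et N q b c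

/-! ### D. The numeric step -/

/-- Registers of two arrays. -/
def toF (N q b X S j : ℕ) : ℕ × ℕ := (dig (2 ^ Eb b) X j, dig (2 ^ Fb N q b) S j)

/-- EC. As `Helper57/CTR/EC.lean`. -/
def GoalEC : Prop := GoalCT → ∀ b W : ℕ, 1 ≤ Rb b → Pb b ^ (4 * b + 2) ≤ W →
  (∀ al p X, shC b W al p X = shN (cC b W) (4 * b) (36 * b) (Rb b) al p X) ∧
  ∀ (tst : ℕ → ℕ) (T v : ℕ), ∀ z : ℕ × ℕ, app (gadC b W) tst T v z =
    if apT tst b W T v z.1 = 0 then none else some (apX b W T v z.1 z.2, apS b W T v z.1 z.2)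

/-- SET. As `Helper16/CTR/SET.lean` (`setD`, `getD` are the same functions as in CTR). -/
def GoalSET : Prop := GoalCT → ∀ W e m X j y : ℕ, (2 ^ e) ^ m ≤ W → 2 ^ e ≤ W → X < (2 ^ e) ^ m →
  j < m → y < 2 ^ e →
  setD W e m X j y < (2 ^ e) ^ m ∧ (∀ i, dig (2 ^ e) (setD W e m X j y) i =
    if i = j then y else dig (2 ^ e) X i) ∧ ∀ i, getD W e X i = dig (2 ^ e) X i

/-- The conclusion of EE. -/
def EEOK : Prop := ∀ (tst : ℕ → ℕ) (t : ℕ → ℕ → ℕ → ℕ → ℕ → ℕ)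
  (N q b c V G w X S A : ℕ) (D : De),
    1 ≤ q → q ≤ N → 1 ≤ b → c ≤ b → WF q V D → G < 8 ^ b → X < (2 ^ Eb b) ^ (3 * q + 4) →
    S < (2 ^ Fb N q b) ^ (3 * q + 4) → (∀ j, dig (2 ^ Eb b) X j < Pb b ^ (4 * b + 2)) →
    (D.k = 0 → w = t 2 D.v (A % 2 ^ c) 0 0) →
    (3 ≤ D.k → w = t D.m D.v (gA (2 ^ b) G) (gY (2 ^ b) G) (gZ (2 ^ b) G)) →
    (bigT tst b c (2 ^ Et N q b c) D G w X A = 0 →
      exec (gadC b (2 ^ Et N q b c)) tst t c D G (toF N q b X S, A) = none) ∧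
    (bigT tst b c (2 ^ Et N q b c) D G w X A ≠ 0 → ∃ C',
      exec (gadC b (2 ^ Et N q b c)) tst t c D G (toF N q b X S, A) =
        some (C', bigA c (2 ^ Et N q b c) D w A) ∧
      ((∀ j ≤ 3 * q + 3, (C' j).1 < Pb b ^ (4 * b + 2) ∧ (C' j).2 < 2 ^ Fb N q b) →
        toF N q b (bigX N q b c (2 ^ Et N q b c) D G w X S A)
          (bigS N q b c (2 ^ Et N q b c) D w X S A) = C' ∧
        bigX N q b c (2 ^ Et N q b c) D G w X S A < (2 ^ Eb b) ^ (3 * q + 4) ∧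
        bigS N q b c (2 ^ Et N q b c) D w X S A < (2 ^ Fb N q b) ^ (3 * q + 4)))

/-- EE (the numeric step is the abstract step). As `Helper93/CTR/EE.lean`. `gokK = 1` iff the guess is
allowed (`nrm` for the kinds `≥ 3`, `G = 0` for the others; `(2 ^ b) ^ 2 = 2 ^ (2 b)`); `bigR3` has the
digits of the registers after the reads: three times SET (`e, f, f + 1 ≤ 3q+3`), where no read means
`shC 0 X = X` for `X < P ^ (4b+2)` (SHN with `al = 0`), and for `m ≥ 1`: `e ≠ f`, `e ≠ f + 1`; `actK = 1`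
for the kinds `0, 2, 3`, and then a fourth `setD` for the register `i`. EC for `app`. -/
def GoalEE : Prop := GoalCT → GoalSHN → GoalEC → GoalSET → GoalPB → EEOK

/-! ### E. The machine -/

/-- `n` ones from the place `s`. -/
def Ones (w : List Bool) (s n : ℕ) : Prop := ∀ i < n, w[s + i]? = some true

/-- The word starts with `1^N 0 1^q`. -/
def P1 (w : List Bool) (N q : ℕ) : Prop := Ones w 0 N ∧ w[N]? = some false ∧ Ones w (N + 1) q

/-- The word starts with `1^N 0 1^q 0 1^b`. -/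
def P2 (w : List Bool) (N q b : ℕ) : Prop :=
  P1 w N q ∧ w[N + 1 + q]? = some false ∧ Ones w (N + q + 2) b

/-- The word starts with `1^N 0 1^q 0 1^b 0 1^c`. -/
def P3 (w : List Bool) (N q b c : ℕ) : Prop :=
  P2 w N q b ∧ w[N + q + 2 + b]? = some false ∧ Ones w (N + q + b + 3) c

/-- The header is complete and has good parameters. -/
def Hd (ok : ℕ → ℕ → ℕ → ℕ → ℕ) (w : List Bool) (N q b c : ℕ) : Prop :=
  P3 w N q b c ∧ w[N + q + b + 3 + c]? = some false ∧ 1 ≤ q ∧ q ≤ N ∧ 1 ≤ b ∧ c ≤ b ∧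
    ok N q b c ≠ 0

/-- Also the word is long enough. -/
def Full (ok : ℕ → ℕ → ℕ → ℕ → ℕ) (w : List Bool) (N q b c : ℕ) : Prop :=
  Hd ok w N q b c ∧ 2 ^ (N + b) < w.length

/-- The data. -/
def dat (w : List Bool) (N q b c : ℕ) : List Bool := w.drop (N + q + b + c + 4)

/-- The steps of the algorithm on the data of `w`. -/
def opM (tst : ℕ → ℕ) (w : List Bool) (N q b c : ℕ) :
    ℕ → ℕ → (ℕ → ℕ × ℕ) × ℕ → Option ((ℕ → ℕ × ℕ) × ℕ) :=
  op (gadC b (2 ^ Et N q b c)) tst (tabV b (dat w N q b c)) q c (root N q) (Nt N q)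

/-- The state `s` can be reached at the time `τ`. -/
def Rchd (tst : ℕ → ℕ) (w : List Bool) (N q b c τ : ℕ) (s : (ℕ → ℕ × ℕ) × ℕ) : Prop :=
  ∃ γ : ℕ → ℕ, (∀ τ', γ τ' < 8 ^ b) ∧
    runs (opM tst w N q b c) γ τ (fun _ => (0, 0), 0) = some s

/-- The language of the machine. -/
def LangM (ok : ℕ → ℕ → ℕ → ℕ → ℕ) (tst : ℕ → ℕ) (mal : ℕ) : Set (List Bool) :=
  {w | (∃ N q b c, Full ok w N q b c ∧ tst (rootV N q b c (dat w N q b c)) ≠ 0) ∨
    (mal ≠ 0 ∧ ¬ ∃ N q b c, Full ok w N q b c)}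

/-- FU. `Full` determines the parameters, and the beginnings of the header determine the parameters
which are read completely: `N` is the first place of a zero, `N + 1 + q` the second, and so on. (As
`Helper18/TE/FU.lean`.) -/
def GoalFU : Prop := ∀ (ok : ℕ → ℕ → ℕ → ℕ → ℕ) (w : List Bool) (N q b c N' q' b' c' : ℕ),
  Full ok w N' q' b' c' →
  (Ones w 0 N → N ≤ N') ∧ (P1 w N q → N = N' ∧ q ≤ q') ∧
  (P2 w N q b → N = N' ∧ q = q' ∧ b ≤ b') ∧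
  (P3 w N q b c → N = N' ∧ q = q' ∧ b = b' ∧ c ≤ c') ∧
  (P3 w N q b c → w[N + q + b + 3 + c]? = some false → N = N' ∧ q = q' ∧ b = b' ∧ c = c')

/-- The invariant of the machine. -/
inductive Inv (ok : ℕ → ℕ → ℕ → ℕ → ℕ) (tst : ℕ → ℕ) (mal : ℕ) (w : List Bool) : Sta → Prop
  | rej : Inv ok tst mal w rejS
  | m0 (N : ℕ) (h1 : Ones w 0 N) : Inv ok tst mal w (hdr 0 N 0 0 0 0 0)
  | m1 (N q : ℕ) (h1 : P1 w N q) : Inv ok tst mal w (hdr 1 N q 0 0 0 0)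
  | m2 (N q b : ℕ) (h1 : P2 w N q b) : Inv ok tst mal w (hdr 2 N q b 0 0 0)
  | m3 (N q b c : ℕ) (h1 : P3 w N q b c) : Inv ok tst mal w (hdr 3 N q b c 0 0)
  | m4 (N q b c u : ℕ) (h1 : Hd ok w N q b c) (hu : u ≤ N + b)
      (h2 : ∀ t < u, 2 ^ t < w.length) : Inv ok tst mal w (hdr 4 N q b c u (2 ^ u))
  | m5 (N q b c u : ℕ) (h1 : Full ok w N q b c) (hu : u ≤ Et N q b c) :
      Inv ok tst mal w (hdr 5 N q b c u (2 ^ u))
  | m6 (N q b c u τ g t : ℕ) (D : De) (X S A : ℕ) (h1 : Full ok w N q b c)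
      (hτ : τ < 13 ^ Nt N q) (hu : u ≤ Nt N q + 4 * b)
      (hg : g < 2 ^ min (u - Nt N q) (3 * b))
      (hD : D = dec q (root N q) (Nt N q) τ (min u (Nt N q)))
      (ht : t = word (dat w N q b c) (blkM b c (2 ^ Et N q b c) D A g * b)
        (u - (Nt N q + 3 * b)))
      (hX : X < (2 ^ Eb b) ^ (3 * q + 4)) (hS : S < (2 ^ Fb N q b) ^ (3 * q + 4))
      (hC : Rchd tst w N q b c τ (toF N q b X S, A)) :
      Inv ok tst mal w (mainS N q b c u (2 ^ Et N q b c) τ g t D X S A)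
  | m7 (h1 : w ∈ LangM ok tst mal) : Inv ok tst mal w accS

/-- FI0. Modes 0 to 5, 7, 8. As `Helper12/CTR/FI0.lean` and `Helper54/TE/FI0.lean`. If `γ = 1` then
`gqM x = 0`, so the next state is `rejS` or `x`. If the machine finds that the word is not well
formed there are no parameters with `Full` (FU; mode 3: the header is complete, so the parameters
would be the same and good; mode 4: `2 ^ u ≤ 2 ^ (N + b) < w.length` for `Full`), so for `mal ≠ 0`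
the word is in `LangM`. -/
def GoalFI0 : Prop := GoalFU → ∀ (ok : ℕ → ℕ → ℕ → ℕ → ℕ) (tst : ℕ → ℕ) (mal : ℕ)
  (w : List Bool) (x : Sta) (γ : ℕ), γ < 2 →
  Inv ok tst mal w x → x.mo ≠ 6 → Inv ok tst mal w ((machM ok tst mal).nx w x γ)

/-- Correctness of the numeric step on the data of a word. -/
def StepOK : Prop := ∀ (ok : ℕ → ℕ → ℕ → ℕ → ℕ) (tst : ℕ → ℕ) (w : List Bool)
  (N q b c τ g X S A : ℕ),
  Full ok w N q b c → τ < 13 ^ Nt N q → g < 8 ^ b → X < (2 ^ Eb b) ^ (3 * q + 4) →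
  S < (2 ^ Fb N q b) ^ (3 * q + 4) → Rchd tst w N q b c τ (toF N q b X S, A) →
  ∀ (D : De) (t : ℕ), D = dec q (root N q) (Nt N q) τ (Nt N q) →
  t = word (dat w N q b c) (blkM b c (2 ^ Et N q b c) D A g * b) b →
  (bigT tst b c (2 ^ Et N q b c) D g t X A = 0 →
    opM tst w N q b c τ g (toF N q b X S, A) = none) ∧
  (bigT tst b c (2 ^ Et N q b c) D g t X A ≠ 0 → ∃ s',
    opM tst w N q b c τ g (toF N q b X S, A) = some s' ∧
    Rchd tst w N q b c (τ + 1) s' ∧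
    (τ + 1 < 13 ^ Nt N q →
      s' = (toF N q b (bigX N q b c (2 ^ Et N q b c) D g t X S A)
        (bigS N q b c (2 ^ Et N q b c) D t X S A), bigA c (2 ^ Et N q b c) D t A) ∧
      bigX N q b c (2 ^ Et N q b c) D g t X S A < (2 ^ Eb b) ^ (3 * q + 4) ∧
      bigS N q b c (2 ^ Et N q b c) D t X S A < (2 ^ Fb N q b) ^ (3 * q + 4)))

/-- STP. As `Helper90/CTR/STP.lean`. `(2 ^ b) ^ 3 = 8 ^ b`; `4 ^ b * gA + 2 ^ b * gY + gZ = g` for
`K = 2 ^ b`, so `t` is the entry of the table `D.m` of `D.v` if `D.k ≥ 1` and of the table 2 if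
`D.k = 0`. The new run: `Function.update γ τ g` (`runs_congr`, `runs_succ_eq_some`). -/
def GoalSTP : Prop := GoalPB → GoalWFD → GoalDES →
  (∀ b W : ℕ, 1 ≤ b → 2 ^ (3 * b) ≤ W → OK9 (gadC b W)) → DIOK → EEOK → StepOK

/-- The algorithm accepts exactly the right words, and with one sequence of guesses only. -/
def AccOK : Prop := ∀ (tst : ℕ → ℕ) (w : List Bool) (N q b c : ℕ), 1 ≤ q → q ≤ N → 1 ≤ b →
  c ≤ b →
  ((∃ s', Rchd tst w N q b c (13 ^ Nt N q) s') ↔ tst (rootV N q b c (dat w N q b c)) ≠ 0) ∧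
  ∀ γ γ' : ℕ → ℕ, (∀ τ, γ τ < 8 ^ b) → (∀ τ, γ' τ < 8 ^ b) →
    (runs (opM tst w N q b c) γ (13 ^ Nt N q) (fun _ => (0, 0), 0)).isSome →
    (runs (opM tst w N q b c) γ' (13 ^ Nt N q) (fun _ => (0, 0), 0)).isSome →
    ∀ τ < 13 ^ Nt N q, γ τ = γ' τ

/-- ACC. As `gACC` in `Helper53/CTR/Small.lean`. For the existence: `γ τ = canR … τ` for
`τ < 13 ^ Nt`, `0` otherwise; `can < K ^ 3`, because all its values are `0` or `enc` of numbers
`< K` (`ev < K`; the argument `X` of `can` is always `< K`, prove this first by induction). -/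
def GoalACC : Prop := GoalPB → AlgOK →
  (∀ b W : ℕ, 1 ≤ b → 2 ^ (3 * b) ≤ W → OK9 (gadC b W)) → AccOK

/-- FI6. Mode 6. As `Helper72/CTR/FI6.lean`. For `γ = 1` and `gqM x = 0` the next state is `rejS`. -/
def GoalFI6 : Prop := GoalPB → StepOK → AccOK → ∀ (ok : ℕ → ℕ → ℕ → ℕ → ℕ) (tst : ℕ → ℕ)
  (mal : ℕ) (w : List Bool) (x : Sta) (γ : ℕ), γ < 2 →
  Inv ok tst mal w x → x.mo = 6 → Inv ok tst mal w ((machM ok tst mal).nx w x γ)

/-- The invariant is preserved. -/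
def InvStep : Prop := ∀ (ok : ℕ → ℕ → ℕ → ℕ → ℕ) (tst : ℕ → ℕ) (mal : ℕ) (w : List Bool)
  (x : Sta) (γ : ℕ), γ < 2 → Inv ok tst mal w x → Inv ok tst mal w ((machM ok tst mal).nx w x γ)

/-- FC0. The first phases on a well formed input (`γ = 0`): `N + 1`, `q + 1`, `b + 1`, `c + 1` steps for
the header, `N + b + 1` steps in mode 4, `Et + 1` steps in mode 5. (As `Helper67/CTR/FC0.lean`.) -/
def GoalFC0 : Prop := ∀ (ok : ℕ → ℕ → ℕ → ℕ → ℕ) (tst : ℕ → ℕ) (mal : ℕ) (w : List Bool)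
  (N q b c : ℕ), Full ok w N q b c →
  (machM ok tst mal).Reach w (mainS N q b c 0 (2 ^ Et N q b c) 0 0 0 (root N q) 0 0 0)

/-- One step of the algorithm is done by the machine. -/
def BigStep : Prop := ∀ (ok : ℕ → ℕ → ℕ → ℕ → ℕ) (tst : ℕ → ℕ) (mal : ℕ) (w : List Bool)
  (N q b c τ g X S A : ℕ) (s' : (ℕ → ℕ × ℕ) × ℕ), Full ok w N q b c → τ < 13 ^ Nt N q →
  g < 8 ^ b → X < (2 ^ Eb b) ^ (3 * q + 4) → S < (2 ^ Fb N q b) ^ (3 * q + 4) →
  Rchd tst w N q b c τ (toF N q b X S, A) →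
  (machM ok tst mal).Reach w (mainS N q b c 0 (2 ^ Et N q b c) τ 0 0 (root N q) X S A) →
  opM tst w N q b c τ g (toF N q b X S, A) = some s' →
  (τ + 1 = 13 ^ Nt N q → (machM ok tst mal).Reach w accS) ∧
  (τ + 1 < 13 ^ Nt N q → ∃ X' S' A', s' = (toF N q b X' S', A') ∧
    X' < (2 ^ Eb b) ^ (3 * q + 4) ∧ S' < (2 ^ Fb N q b) ^ (3 * q + 4) ∧
    (machM ok tst mal).Reach w
      (mainS N q b c 0 (2 ^ Et N q b c) (τ + 1) 0 0 (root N q) X' S' A'))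

/-- FC1. As `Helper98/CTR/FC1.lean`: `Nt` steps which compute `dec`, `3 b` steps which guess the bits of
`g` (most significant first), `b` steps which read the block, one step with StepOK. -/
def GoalFC1 : Prop := GoalPB → StepOK → BigStep

/-- FM (malformed words). As `Helper57/TE/FM.lean`. From the start with `γ = 0`: every state of the
invariant in the modes 0 to 4 has a successor (for `γ = 0`) which is `accS` or has again a mode
`≤ 4` and a larger measure `(2 * w.length + 3) * mode + counter` (counter `N, q, b, c, u`, all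
`≤ w.length`); the modes 5, 6 are impossible by the invariant. -/
def GoalFM : Prop := GoalFI0 → GoalFU → ∀ (ok : ℕ → ℕ → ℕ → ℕ → ℕ) (tst : ℕ → ℕ) (mal : ℕ)
  (w : List Bool), mal ≠ 0 → (¬ ∃ N q b c, Full ok w N q b c) →
  (machM ok tst mal).Reach w accS

/-- Malformed words are accepted if `mal ≠ 0`. -/
def MalOK : Prop := ∀ (ok : ℕ → ℕ → ℕ → ℕ → ℕ) (tst : ℕ → ℕ) (mal : ℕ)
  (w : List Bool), mal ≠ 0 → (¬ ∃ N q b c, Full ok w N q b c) →
  (machM ok tst mal).Reach w accS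

/-- Soundness and completeness of the machine. -/
def MachOK : Prop := ∀ (ok : ℕ → ℕ → ℕ → ℕ → ℕ) (tst : ℕ → ℕ) (mal : ℕ) (w : List Bool),
  (∀ x, (machM ok tst mal).Reach w x → Inv ok tst mal w x) ∧
  ((∃ x, (machM ok tst mal).Reach w x ∧ (machM ok tst mal).acc x ≠ 0) ↔ w ∈ LangM ok tst mal)

/-- FCS. As `Helper31/CTR/FCS.lean`; malformed words by MalOK. (Completeness: a run `γ` of length
`13 ^ Nt`; by induction on the time `τ < 13 ^ Nt` the main state is reachable for the state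
of the run at the time `τ`.) -/
def GoalFCS : Prop := AccOK → GoalFC0 → BigStep → MalOK → InvStep → MachOK

/-- The conclusion of FX. -/
def FXOK : Prop := ∀ (ok : ℕ → ℕ → ℕ → ℕ → ℕ) (tst : ℕ → ℕ) (mal : ℕ) (w : List Bool)
  (N q b c u τ g t : ℕ) (D : De) (X S A : ℕ), Nt N q ≤ u → u ≤ Nt N q + 3 * b →
  Inv ok tst mal w (mainS N q b c u (2 ^ Et N q b c) τ g t D X S A) →
  Relation.ReflTransGen (fun x x' => ∃ γ < 2, x' = (machM ok tst mal).nx w x γ)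
    (mainS N q b c u (2 ^ Et N q b c) τ g t D X S A) accS →
  ∃ g' < 8 ^ b, g' / 2 ^ (3 * b - (u - Nt N q)) = g ∧ ∃ E : (ℕ → ℕ × ℕ) × ℕ,
    opM tst w N q b c τ g' (toF N q b X S, A) = some E ∧
    ∃ γ : ℕ → ℕ, (∀ τ', γ τ' < 8 ^ b) ∧
      (runs (fun τ' => opM tst w N q b c (τ + 1 + τ')) γ (13 ^ Nt N q - (τ + 1)) E).isSome

/-- FX (from the main loop to acceptance). As `Helper81/TE/FX.lean`. Induction on the length of the
computation to `accS`, with a statement for all main states: for `u < Nt` there are such `g', E, γ`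
without the condition on `g`; for `u > Nt + 3 b` with `g' = g`. Each big step is a step of `opM` by
StepOK. -/
def GoalFX : Prop := GoalPB → StepOK → InvStep → FXOK

/-- FUN (unambiguity). As `Helper59/TE/FUN.lean`. Suppose both successors of the reachable state `x`
(not accepting) reach `accS`. For `gqM x = 0` the successor for `γ = 1` is `rejS`, from which only
`rejS` is reachable (or `x` is `accS`). For `gqM x = 1`: `x` is a main state with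
`Nt ≤ u < Nt + 3 b`; FX for the two successors `2 g + γ` gives two different `g'`, and with the run
of the invariant before the time `τ` two complete runs with different guesses at the time `τ`
(`runs_add`), in contradiction to AccOK. -/
def GoalFUN : Prop := GoalPB → AccOK → FXOK → InvStep → MachOK →
  ∀ (ok : ℕ → ℕ → ℕ → ℕ → ℕ) (tst : ℕ → ℕ) (mal : ℕ) (w : List Bool),
    NUnamb (machM ok tst mal) w

/-- The conclusion of FB. -/
def BoundOK : Prop := ∀ (ok : ℕ → ℕ → ℕ → ℕ → ℕ) (tst : ℕ → ℕ) (mal : ℕ) (w : List Bool)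
  (x : Sta), Inv ok tst mal w x →
    (∃ N q b c, Full ok w N q b c ∧ ∀ i, Ctx.enc x i < 2 ^ (Et N q b c + 1)) ∨
    ∀ i, Ctx.enc x i ≤ 2 * w.length + 9

/-- FB (bounds). As `Helper63/CTR/FB.lean`; 20 coordinates. -/
def GoalFB : Prop := GoalPB → GoalWFD →
  (∀ b W : ℕ, 1 ≤ b → 2 ^ (3 * b) ≤ W → OK9 (gadC b W)) → DIOK → BoundOK

/-! ### F. Linear space functions -/

/-- LN. As `Helper66/CTR/LN.lean`. -/
def GoalLN : Prop := GoalLSD → GoalLCT →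
  LS (fun x : ℕ × ℕ × ℕ × ℕ => Et x.1 x.2.1 x.2.2.1 x.2.2.2) ∧
  LS (fun x : ℕ × ℕ × ℕ => Fb x.1 x.2.1 x.2.2) ∧ LS (fun x : ℕ => Eb x) ∧
  LS (fun x : ℕ × ℕ => Nt x.1 x.2) ∧ LS (fun x : ℕ × ℕ => Hb x.1 x.2) ∧
  LS (fun x : (ℕ × ℕ) × ℕ × ℕ × ℕ => shC x.1.1 x.1.2 x.2.1 x.2.2.1 x.2.2.2) ∧
  (∀ tst : ℕ → ℕ, LS tst →
    LS (fun x : (ℕ × ℕ) × ℕ × ℕ × ℕ => apT tst x.1.1 x.1.2 x.2.1 x.2.2.1 x.2.2.2)) ∧
  LS (fun x : (ℕ × ℕ) × ℕ × ℕ × ℕ × ℕ => apX x.1.1 x.1.2 x.2.1 x.2.2.1 x.2.2.2.1 x.2.2.2.2) ∧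
  LS (fun x : (ℕ × ℕ) × ℕ × ℕ × ℕ × ℕ => apS x.1.1 x.1.2 x.2.1 x.2.2.1 x.2.2.2.1 x.2.2.2.2) ∧
  LS (fun x : (ℕ × ℕ) × ℕ × ℕ × ℕ × ℕ =>
    setD x.1.1 x.1.2 x.2.1 x.2.2.1 x.2.2.2.1 x.2.2.2.2) ∧
  LS (fun x : ℕ × ℕ × ℕ × ℕ => getD x.1 x.2.1 x.2.2.1 x.2.2.2)

/-- LSUB. As `Helper57/CTR/LSUB.lean`. -/
def GoalLSUB : Prop := GoalLCF →
  LS (fun x : (ℕ × De) × ℕ × ℕ => sub x.1.1 x.1.2 x.2.1 x.2.2) ∧
  LS (fun x : ℕ × ℕ => root x.1 x.2)

/-- The parameters of a step: `(N, q, b, c, W)`, the descriptor, `(G, w)`, `(X, S, A)`. -/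
abbrev BigIn := (ℕ × ℕ × ℕ × ℕ × ℕ) × De × (ℕ × ℕ) × (ℕ × ℕ × ℕ)

/-- LBG. As `Helper78/CTR/LBG.lean`. -/
def GoalLBG : Prop := GoalLN → GoalLSD → GoalLCT →
  (∀ tst : ℕ → ℕ, LS tst →
    LS (fun x : BigIn => bigT tst x.1.2.2.1 x.1.2.2.2.1 x.1.2.2.2.2 x.2.1 x.2.2.1.1 x.2.2.1.2
      x.2.2.2.1 x.2.2.2.2.2)) ∧
  LS (fun x : BigIn => bigX x.1.1 x.1.2.1 x.1.2.2.1 x.1.2.2.2.1 x.1.2.2.2.2 x.2.1 x.2.2.1.1
    x.2.2.1.2 x.2.2.2.1 x.2.2.2.2.1 x.2.2.2.2.2) ∧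
  LS (fun x : BigIn => bigS x.1.1 x.1.2.1 x.1.2.2.1 x.1.2.2.2.1 x.1.2.2.2.2 x.2.1
    x.2.2.1.2 x.2.2.2.1 x.2.2.2.2.1 x.2.2.2.2.2) ∧
  LS (fun x : BigIn => bigA x.1.2.2.2.1 x.1.2.2.2.2 x.2.1 x.2.2.1.2 x.2.2.2.2.2) ∧
  LS (fun x : BigIn => blkM x.1.2.2.1 x.1.2.2.2.1 x.1.2.2.2.2 x.2.1 x.2.2.2.2.2 x.2.2.1.1)

/-- The conclusion of LNX. -/
def LSOK : Prop := ∀ (ok : ℕ → ℕ → ℕ → ℕ → ℕ) (tst : ℕ → ℕ) (mal : ℕ),
  LS (fun x : ℕ × ℕ × ℕ × ℕ => ok x.1 x.2.1 x.2.2.1 x.2.2.2) → LS tst →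
    LS (machM ok tst mal).addr ∧
    LS (fun p : Sta × ℕ × ℕ => (machM ok tst mal).next p.1 p.2.1 p.2.2) ∧
    LS (machM ok tst mal).acc

/-- LNX. As `Helper66/CTR/LNX.lean`. -/
def GoalLNX : Prop := GoalLCF → GoalLN → GoalLSD → GoalLCT → GoalLSUB → GoalLBG → LSOK

/-! ### G. Assembly -/

/-- LG. As `Helper24/CTR/LG.lean` and `Helper79/TE/LG1.lean`; the complement: FU. -/
def GoalLG : Prop := GoalFU → ∀ (ok : ℕ → ℕ → ℕ → ℕ → ℕ) (D : Set (ℕ × ℕ × ℕ × ℕ)),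
  (∀ N q b c, (N, q, b, c) ∈ D ↔ ok N q b c ≠ 0) →
  CallTree D = LangM ok (fun v => eq01 v 1) 0 ∧
  (CallTree D)ᶜ = LangM ok (fun v => 1 - eq01 v 1) 1

/-- The second space bound. -/
noncomputable def s2 (n : ℕ) : ℝ := Real.log n * √(Real.log n * Real.log (Real.log n))

/-- AS1 (asymptotics). As `Helper36/CTR/AS.lean`. `N log 2 ≤ log n`. `Pb b ≤ 37 b`, `Gb b ≤ 150`, so
`Eb b ≤ 6 b (log₂ b + 7)`, `Fb ≤ 8 (Hb + 1)`; `Hb ≤ N / q + 1`, so `q Hb ≤ 2 N`; `b ≤ b log₂ b + 1`;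
`3 q + 4 ≤ 7 q`; `c Hb ≤ C q Hb ≤ 2 C N`. -/
def GoalAS1 : Prop := ∀ C : ℕ, ∃ K : ℝ, 0 ≤ K ∧ ∀ (ok : ℕ → ℕ → ℕ → ℕ → ℕ) (w : List Bool)
    (N q b c : ℕ), Full ok w N q b c → q * b * Nat.log 2 b ≤ C * N → c ≤ C * q →
    ((Et N q b c + 1 : ℕ) : ℝ) ≤ K * (Real.log w.length + 1)

/-- AS2 (asymptotics). `N log 2, b log 2 ≤ log n`, `log n ≥ 2 log 2 > 1.3`, `log log n > 0.2`.
`Et ≤ K (N + q b (log₂ b + 1) + c N / q + c + b)` (see AS1). For `b ≥ 2`: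
`q (log₂ b + 1) ≤ 2 q log₂ b ≤ 2 √(C N log₂ b)`, and for `b = 1` the term is `≤ q ≤ N`;
`N / q ≤ C q (log₂ b + 1)`. So `Et ≤ K (N + b √(N (log₂ b + 1)))`, and `log₂ b + 1 ≤ K log log n`
(`b ≤ 2 log n`). -/
def GoalAS2 : Prop := ∀ C : ℕ, ∃ K : ℝ, 0 ≤ K ∧ ∀ (ok : ℕ → ℕ → ℕ → ℕ → ℕ) (w : List Bool)
    (N q b c : ℕ), Full ok w N q b c → q ^ 2 * Nat.log 2 b ≤ C * N →
    N ≤ C * q ^ 2 * (Nat.log 2 b + 1) →
    ((Et N q b c + 1 : ℕ) : ℝ) ≤ K * (s2 w.length + 1)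

/-- AS3. For `n ≥ 3`: `s2 n ≥ 0.3 log n`; finitely many other `n`. (As `Helper20/TE/AS3.lean`.) -/
def GoalAS3 : Prop := ∃ K : ℝ, 0 ≤ K ∧ ∀ n : ℕ,
  ((Nat.log 2 (n + 1) + 5 : ℕ) : ℝ) ≤ K * (Real.log n + 1) ∧
  ((Nat.log 2 (n + 1) + 5 : ℕ) : ℝ) ≤ K * (s2 n + 1)

/-- FIN (the theorem). As `Helper31/CTR/FIN.lean` and `Helper40/TE/FIN.lean`; the first hypothesis is
the compilation theorem of project TE. -/
def GoalFIN : Prop :=
  (∀ {α : Type} [Ctx α] (N : NumMach α), LS N.addr →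
    LS (fun p : α × ℕ × ℕ => N.next p.1 p.2.1 p.2.2) → LS N.acc → (∀ a, N.acc a ≤ 1) →
    (∀ i, Ctx.enc N.start i = 0) → N.acc N.start = 0 →
    ∃ (k : ℕ) (M : NTM k) (c : ℕ), ∀ (w : List Bool) (S : ℕ),
      (∀ a, N.Reach w a → ∀ i, Ctx.enc a i < 2 ^ S) → NUnamb N w →
      (M.Accepts w ↔ ∃ a, N.Reach w a ∧ N.acc a ≠ 0) ∧ M.Within w ((c * (S + 1) : ℕ) : ℝ) ∧
      M.Unambiguous w) →
  LSOK → MachOK →
  (∀ (ok : ℕ → ℕ → ℕ → ℕ → ℕ) (tst : ℕ → ℕ) (mal : ℕ) (w : List Bool),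
    NUnamb (machM ok tst mal) w) → BoundOK → GoalFU → GoalLG → GoalAS1 → GoalAS2 → GoalAS3 →
  (∀ C : ℕ, CallTree {x | x.2.1 * x.2.2.1 * Nat.log 2 x.2.2.1 ≤ C * x.1 ∧
      x.2.2.2 ≤ C * x.2.1} ∈ USPACE (fun n => Real.log n) ∧
    (CallTree {x | x.2.1 * x.2.2.1 * Nat.log 2 x.2.2.1 ≤ C * x.1 ∧
      x.2.2.2 ≤ C * x.2.1})ᶜ ∈ USPACE (fun n => Real.log n)) ∧
  ∀ C : ℕ, CallTree {x | x.2.1 ^ 2 * Nat.log 2 x.2.2.1 ≤ C * x.1 ∧
      x.1 ≤ C * x.2.1 ^ 2 * (Nat.log 2 x.2.2.1 + 1)} ∈ USPACE s2 ∧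
    (CallTree {x | x.2.1 ^ 2 * Nat.log 2 x.2.2.1 ≤ C * x.1 ∧
      x.1 ≤ C * x.2.1 ^ 2 * (Nat.log 2 x.2.2.1 + 1)})ᶜ ∈ USPACE s2

end Pool.Agent.Helper53.CTG
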