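import Pool.Agent.Helper53.CTG.Goals

/-!
# PROJECT CTG, packets SET, ALG
-/

namespace Pool.Agent.Helper53.CTG

open Pool.Agent.Helper1.TE (GoalCT)
open Pool.Agent.Helper65.LinSpace (dig tab ifz eq01 capPow tab_lt dig_tab dig_lt)

theorem dig_eq_zero {q m R i : ℕ} (hR : R < q ^ m) (hq : 0 < q) (hi : m ≤ i) :
    dig q R i = 0 := by
  unfold dig
  rw [Nat.div_eq_of_lt (hR.trans_le (Nat.pow_le_pow_right hq hi)), Nat.zero_mod]

theorem gSET : GoalSET := by
  intro hCT W e m X j y hW hW2 hX hj hy
  have hq : 0 < 2 ^ e := by positivity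
  have hcap : capPow 2 e W = 2 ^ e := min_eq_left (by omega)
  have hd : ∀ i, ifz (eq01 i j) (dig (2 ^ e) X i) y = if i = j then y else dig (2 ^ e) X i := by
    intro i
    by_cases h : i = j <;> simp [ifz, eq01, h]
  have hdl : ∀ i, (if i = j then y else dig (2 ^ e) X i) < 2 ^ e := by
    intro i
    split_ifs
    · exact hy
    · exact dig_lt hq _ _
  have hs : setD W e m X j y = tab (2 ^ e) m fun i => if i = j then y else dig (2 ^ e) X i := by
    unfold setD
    rw [hcap]
    simp only [hd]
    exact hCT W (2 ^ e) m _ (fun i _ => hdl i) hW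
  have hlt : setD W e m X j y < (2 ^ e) ^ m := by
    rw [hs]
    exact tab_lt fun i _ => hdl i
  refine ⟨hlt, fun i => ?_, fun i => ?_⟩
  · rcases lt_or_ge i m with h | h
    · rw [hs]
      exact dig_tab (fun i _ => hdl i) h
    · rw [dig_eq_zero hlt hq h, if_neg (by omega), dig_eq_zero hX hq h]
  · unfold getD
    rw [hcap]

theorem gALG : GoalALG := by
  intro hB hE hKBX hKBC hKX hKC hVX Z g hg tst t N q c ht hq hqN
  have hbase := hVX hB hE g hg tst t q c ht hq
  have hblk : ∀ m, VX g tst t q c m → ∀ u, 1 ≤ u → u ≤ q →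
      KX g tst t q c m u ∧ KC g tst t q c m u := by
    intro m hm u h1
    induction u, h1 using Nat.le_induction with
    | base =>
      intro _
      exact ⟨hKBX hB hE g hg tst t q c m ht hq hm, hKBC hB hE g hg tst t q c m ht hq hm⟩
    | succ u hu ih =>
      intro h
      have h' := ih (by omega)
      exact ⟨hKX hB hE g hg tst t q c m u ht hu (by omega) h'.1,
        hKC hB hE g hg tst t q c m u ht hu (by omega) h'.2⟩
  have hV : ∀ m, VX g tst t q c m := by
    intro m
    induction m with
    | zero => exact hbase.1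
    | succ m ih =>
      intro γ v i T C A s' hγ hC hi
      have h := hblk m ih q hq le_rfl
      have hsub : ∀ d < 13, sub q (nod v i T) ((q + 1) * m + q) d = phV (3 * (q - q)) v i T d := by
        intro d _
        rw [hE.2.2.2.1 q m v i T d, Nat.sub_self, Nat.mul_zero]
      have hstep := hbase.2 m q hq le_rfl h.1 h.2 (nod v i T) v i T hsub hi γ C A s' hγ hC
      have e1 : (q + 1) * (m + 1) = (q + 1) * m + q + 1 := by ring
      have e2 : q * (m + 1) = q * m + q := by ring
      rw [e1, e2, hstep]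
      have hmod : ((q + 1) * m + q) % (q + 1) = q := by
        rw [Nat.mul_add_mod, Nat.mod_eq_of_lt (by omega)]
      have hcan : ∀ τ, can g.K t q c ((q + 1) * m + q + 1) v (A % 2 ^ c) τ =
          if τ / 13 ^ ((q + 1) * m + q) = 1 then
            can g.K t q c ((q + 1) * m + q) v (A % 2 ^ c) (τ % 13 ^ ((q + 1) * m + q)) else 0 := by
        intro τ
        simp only [can]
        rw [if_pos hmod]
      simp only [hcan]
  intro γ C A s' hγ hC
  obtain ⟨m, u, hm, hu⟩ : ∃ m u, m = (N - 1) / q ∧ u = (N - 1) % q + 1 := ⟨_, _, rfl, rfl⟩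
  have hu1 : 1 ≤ u := by omega
  have huq : u ≤ q := by
    have := Nat.mod_lt (N - 1) (show q > 0 by omega)
    omega
  have hN : q * m + u = N := by
    have := Nat.div_add_mod (N - 1) q
    rw [hm, hu]; omega
  have hHb : Hb N q = m + 1 := by rw [Hb, hm]
  have hNt : Nt N q = (q + 1) * m + u + 1 := by
    rw [Nt, hHb, ← hN]; ring
  have h := hblk m (hV m) u hu1 huq
  have hi : BR q (m + 1) (3 * q + 2 * (Hb N q % 2)) := by
    rw [hHb]; exact Or.inl rfl
  have hstep := hbase.2 m u hu1 huq h.1 h.2 (root N q) 1 (3 * q + 2 * (Hb N q % 2)) 0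
    (fun d _ => hE.2.2.2.2 q m u 1 (3 * q + 2 * (Hb N q % 2)) 0 d huq) hi γ C A s' hγ hC
  have e3 : Nt N q - 1 = (q + 1) * m + u := by omega
  simp only [canR, e3]
  rw [hNt, hstep, hN]

end Pool.Agent.Helper53.CTG
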