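import Pool.Agent.Helper53.CTG.Goals

/-!
# PROJECT CTG, packets RUN, DES, EFF, SHN
-/

namespace Pool.Agent.Helper53.CTG

open Pool.Agent.Helper1.TE (Gad app cif)
open Finset

theorem op_eq_exec {Z : Type} (g : Gad Z) (tst : ℕ → ℕ) (t : ℕ → ℕ → ℕ → ℕ → ℕ → ℕ)
    (q c : ℕ) : ∀ (n : ℕ) (x : De) (τ G : ℕ) (s : (ℕ → Z) × ℕ),
    op g tst t q c x n τ G s = exec g tst t c (des q x n τ) G s := by
  intro n
  induction n with
  | zero => intro x τ G s; rfl
  | succ n ih => intro x τ G s; exact ih _ _ _ _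

theorem des_dec (q : ℕ) (n : ℕ) (x : De) (τ : ℕ) (hτ : τ < 13 ^ n) : ∀ t ≤ n,
    des q (dec q x n τ t) (n - t) (τ % 13 ^ (n - t)) = des q x n τ := by
  intro t
  induction t with
  | zero =>
    intro _
    simp only [dec, Nat.sub_zero]
    rw [Nat.mod_eq_of_lt hτ]
  | succ t ih =>
    intro ht
    rw [← ih (by omega)]
    obtain ⟨k, hk⟩ : ∃ k, n - t = k + 1 := ⟨n - t - 1, by omega⟩
    have h1 : n - (t + 1) = k := by omega
    have h2 : n - 1 - t = k := by omega
    rw [hk, h1]
    simp only [des, dec, h2]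
    have h3 : τ % 13 ^ (k + 1) / 13 ^ k = τ / 13 ^ k % 13 := by
      rw [pow_succ, Nat.mod_mul_right_div_self]
    have h4 : τ % 13 ^ (k + 1) % 13 ^ k = τ % 13 ^ k :=
      Nat.mod_mod_of_dvd _ (pow_dvd_pow 13 (by omega))
    rw [h3, h4]

theorem gDES : GoalDES := by
  refine ⟨fun g tst t q c x n τ G s => op_eq_exec g tst t q c n x τ G s, ?_⟩
  intro q x n τ hτ
  have := des_dec q n x τ hτ n le_rfl
  simp only [Nat.sub_self, pow_zero, Nat.mod_one] at this
  exact this

theorem gEFF : GoalEFF := by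
  intro q x n j
  obtain ⟨k, m, e, f, v, i, T⟩ := x
  have key : ∀ (ph : ℕ → De), (∑ d ∈ range 13, eff (ph d) j) =
      eff (ph 0) j + eff (ph 1) j + eff (ph 2) j + eff (ph 3) j + eff (ph 4) j + eff (ph 5) j +
      eff (ph 6) j + eff (ph 7) j + eff (ph 8) j + eff (ph 9) j + eff (ph 10) j +
      eff (ph 11) j + eff (ph 12) j := by
    intro ph
    simp only [Finset.sum_range_succ, Finset.sum_range_zero, zero_add]
  rw [key (fun d => sub q (k, m, e, f, v, i, T) n d)]
  have h0 : ∀ a b c' d' e'' g' h' : ℕ, eff (a, b, c', d', e'', g', h') j =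
      if j = g' then (if h' = 1 then (1 : ℤ) else if h' = 2 then -1 else 0) else 0 :=
    fun _ _ _ _ _ _ _ => rfl
  have hn : ∀ v' i' T' : ℕ, eff (nod v' i' T') j =
      if j = i' then (if T' = 1 then (1 : ℤ) else if T' = 2 then -1 else 0) else 0 :=
    fun _ _ _ => rfl
  have h1 : ∀ a b c' d' e'' g' : ℕ, eff (a, b, c', d', e'', g', 1) j =
      if j = g' then (1 : ℤ) else 0 := fun _ _ _ _ _ _ => rfl
  have h2 : ∀ a b c' d' e'' g' : ℕ, eff (a, b, c', d', e'', g', 2) j =
      if j = g' then (-1 : ℤ) else 0 := fun _ _ _ _ _ _ => rfl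
  have n1 : ∀ v' i' : ℕ, eff (nod v' i' 1) j = if j = i' then (1 : ℤ) else 0 := fun _ _ => rfl
  have n2 : ∀ v' i' : ℕ, eff (nod v' i' 2) j = if j = i' then (-1 : ℤ) else 0 := fun _ _ => rfl
  have hid : eff idle j = 0 := by simp [eff, idle, De.i, De.T]
  have hneg : ∀ g' : ℕ, (if j = g' then (-1 : ℤ) else 0) = -(if j = g' then (1 : ℤ) else 0) := by
    intro g'; split <;> simp
  have hV : ∀ e' : ℕ, eff (phV e' v i T 0) j + eff (phV e' v i T 1) j + eff (phV e' v i T 2) j +
      eff (phV e' v i T 3) j + eff (phV e' v i T 4) j + eff (phV e' v i T 5) j +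
      eff (phV e' v i T 6) j + eff (phV e' v i T 7) j + eff (phV e' v i T 8) j +
      eff (phV e' v i T 9) j + eff (phV e' v i T 10) j + eff (phV e' v i T 11) j +
      eff (phV e' v i T 12) j = eff (k, m, e, f, v, i, T) j := by
    intro e'
    rw [show phV e' v i T 0 = (2, 0, 0, 0, 0, e', 1) from rfl,
      show phV e' v i T 1 = nod v i T from rfl,
      show phV e' v i T 2 = (2, 0, 0, 0, 0, e', 2) from rfl,
      show phV e' v i T 3 = idle from rfl, show phV e' v i T 4 = idle from rfl,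
      show phV e' v i T 5 = idle from rfl, show phV e' v i T 6 = idle from rfl,
      show phV e' v i T 7 = idle from rfl, show phV e' v i T 8 = idle from rfl,
      show phV e' v i T 9 = idle from rfl, show phV e' v i T 10 = idle from rfl,
      show phV e' v i T 11 = idle from rfl, show phV e' v i T 12 = idle from rfl,
      hid, h1, h2, hn, h0, hneg]
    ring
  have hP : ∀ k₁ k₂ e' f' j' : ℕ, eff (ph k₁ k₂ e' f' j' v i T 0) j +
      eff (ph k₁ k₂ e' f' j' v i T 1) j + eff (ph k₁ k₂ e' f' j' v i T 2) j +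
      eff (ph k₁ k₂ e' f' j' v i T 3) j + eff (ph k₁ k₂ e' f' j' v i T 4) j +
      eff (ph k₁ k₂ e' f' j' v i T 5) j + eff (ph k₁ k₂ e' f' j' v i T 6) j +
      eff (ph k₁ k₂ e' f' j' v i T 7) j + eff (ph k₁ k₂ e' f' j' v i T 8) j +
      eff (ph k₁ k₂ e' f' j' v i T 9) j + eff (ph k₁ k₂ e' f' j' v i T 10) j +
      eff (ph k₁ k₂ e' f' j' v i T 11) j + eff (ph k₁ k₂ e' f' j' v i T 12) j =
      eff (k, m, e, f, v, i, T) j := by
    intro k₁ k₂ e' f' j'
    rw [show ph k₁ k₂ e' f' j' v i T 0 = (k₁, 0, e', 0, v, j', 1) from rfl,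
      show ph k₁ k₂ e' f' j' v i T 1 = nod (2 * v) f' 1 from rfl,
      show ph k₁ k₂ e' f' j' v i T 2 = (k₂, 0, e', 0, v, j', 2) from rfl,
      show ph k₁ k₂ e' f' j' v i T 3 = (k₁, 1, e', f', v, j', 1) from rfl,
      show ph k₁ k₂ e' f' j' v i T 4 = nod (2 * v + 1) (f' + 1) 1 from rfl,
      show ph k₁ k₂ e' f' j' v i T 5 = (k₂, 1, e', f', v, j', 2) from rfl,
      show ph k₁ k₂ e' f' j' v i T 6 = (3, 2, e', f', v, i, T) from rfl,
      show ph k₁ k₂ e' f' j' v i T 7 = (k₁, 1, e', f', v, j', 1) from rfl,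
      show ph k₁ k₂ e' f' j' v i T 8 = nod (2 * v + 1) (f' + 1) 2 from rfl,
      show ph k₁ k₂ e' f' j' v i T 9 = (k₂, 1, e', f', v, j', 2) from rfl,
      show ph k₁ k₂ e' f' j' v i T 10 = (k₁, 0, e', 0, v, j', 1) from rfl,
      show ph k₁ k₂ e' f' j' v i T 11 = nod (2 * v) f' 2 from rfl,
      show ph k₁ k₂ e' f' j' v i T 12 = (k₂, 0, e', 0, v, j', 2) from rfl]
    simp only [h1, h2, n1, n2, h0, hneg]
    ring
  by_cases hk : k = 0
  · subst hk
    by_cases hm : m = 0
    · subst hm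
      by_cases h1 : q - n % (q + 1) = 0
      · simp only [sub, cif, De.k, De.m, De.v, De.i, De.T, h1, if_true]
        exact hV 0
      · by_cases h2 : n % (q + 1) = 0
        · simp only [sub, cif, De.k, De.m, De.v, De.i, De.T, h2, if_true, phB]
          rw [if_neg (by omega), if_neg (by omega), if_neg (by omega), if_neg (by omega),
            if_neg (by omega), if_neg (by omega), if_neg (by omega), if_neg (by omega),
            if_neg (by omega), if_neg (by omega), if_neg (by omega), if_neg (by omega),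
            if_neg (by omega)]
          exact hP _ _ _ _ _
        · simp only [sub, cif, De.k, De.m, De.v, De.i, De.T, h1, h2, if_true, if_false, phK]
          exact hP _ _ _ _ _
    · simp only [sub, cif, De.k, De.m, De.v, De.i, De.T, hm, if_true, if_false]
      exact hV _
  · simp only [sub, cif, De.k, hk, if_false]
    have hi : eff idle j = 0 := by simp [eff, idle, De.i, De.T]
    simp [hi]

/-! ### SHN -/

open Pool.Agent.Helper65.LinSpace (dig tab dig_tab tab_dig tab_lt tab_congr dig_lt)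

theorem gSHN : GoalSHN := by
  intro c m L R K hR al p z hz
  have hP : 0 < L + R := by omega
  have hlt : ∀ (al X : ℕ), ∀ i < m + 2,
      (dig (L + R) X i + al * Pool.Agent.Helper1.TE.vN c m p i) % (L + R) < L + R :=
    fun _ _ _ _ => Nat.mod_lt _ hP
  induction al with
  | zero =>
    simp only [List.replicate_zero, shl, List.foldl_nil, shN, Nat.zero_mul, Nat.add_zero]
    have : tab (L + R) (m + 2) (fun i => dig (L + R) z.1 i % (L + R)) = z.1 := by
      rw [tab_congr (d' := dig (L + R) z.1) (fun i _ => Nat.mod_eq_of_lt (dig_lt hP _ _))]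
      exact tab_dig _ _ hz
    rw [this]
  | succ al ih =>
    rw [List.replicate_succ']
    have h1 : shl (gad9 c m L R K) (List.replicate al p ++ [p]) z =
        (gad9 c m L R K).sh p (shl (gad9 c m L R K) (List.replicate al p) z) := by
      simp [shl, List.foldl_append]
    rw [h1, ih]
    show (shN c m L R 1 p (shN c m L R al p z.1), z.2) = _
    congr 1
    simp only [shN]
    refine tab_congr fun i hi => ?_
    rw [dig_tab (hlt al z.1) hi]
    rw [Nat.mod_add_mod]
    congr 1
    ring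

/-! ### RUN -/

theorem gRUN : GoalRUN := by
  intro Z g tst t q c x n γ s s'
  unfold Rn
  rw [show 13 ^ (n + 1) = 13 * 13 ^ n by rw [pow_succ]; ring, runs_blocks]
  have hpos : 0 < 13 ^ n := by positivity
  have h : ∀ (d : ℕ) (y : (ℕ → Z) × ℕ),
      runs (fun τ => op g tst t q c x (n + 1) (d * 13 ^ n + τ)) (fun τ => γ (d * 13 ^ n + τ))
        (13 ^ n) y =
      runs (op g tst t q c (sub q x n d) n) (fun τ => γ (d * 13 ^ n + τ)) (13 ^ n) y := by
    intro d y
    refine runs_congr fun τ hτ => ?_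
    funext z
    show op g tst t q c x (n + 1) (d * 13 ^ n + τ) (γ (d * 13 ^ n + τ)) z = _
    simp only [op]
    have h1 : (d * 13 ^ n + τ) / 13 ^ n = d := by
      rw [Nat.add_comm, Nat.add_mul_div_right _ _ hpos, Nat.div_eq_of_lt hτ, Nat.zero_add]
    have h2 : (d * 13 ^ n + τ) % 13 ^ n = τ := by
      rw [Nat.add_comm, Nat.add_mul_mod_self_right, Nat.mod_eq_of_lt hτ]
    rw [h1, h2]
  constructor
  · rintro ⟨f, h0, h1, h2⟩
    exact ⟨f, h0, h1, fun d hd => by rw [← h]; exact h2 d hd⟩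
  · rintro ⟨f, h0, h1, h2⟩
    exact ⟨f, h0, h1, fun d hd => by rw [h]; exact h2 d hd⟩

end Pool.Agent.Helper53.CTG
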