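import Pool.Agent.Helper1.TE.All
import Pool.Agent.Helper14.CTG.AS3
import Pool.Agent.Helper15.CTG.GC9
import Pool.Agent.Helper16.CTG.FB
import Pool.Agent.Helper19.CTG.FM
import Pool.Agent.Helper20.CTG.KX
import Pool.Agent.Helper22.CTG.FUN
import Pool.Agent.Helper24.CTG.ELE
import Pool.Agent.Helper26.CTG.KC
import Pool.Agent.Helper32.CTG.EC
import Pool.Agent.Helper33.CTG.KBX
import Pool.Agent.Helper37.CTG.AS1
import Pool.Agent.Helper37.CTG.EOK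
import Pool.Agent.Helper38.CTG.DST
import Pool.Agent.Helper4.CTG.FX
import Pool.Agent.Helper41.CTG.FI6
import Pool.Agent.Helper42.CTG.AS2
import Pool.Agent.Helper44.CTG.LN
import Pool.Agent.Helper47.CTG.FIN
import Pool.Agent.Helper50.CTG.LNX
import Pool.Agent.Helper51.CTG.ACC
import Pool.Agent.Helper53.CTG.Asm
import Pool.Agent.Helper53.CTG.DBD
import Pool.Agent.Helper53.CTG.FI0
import Pool.Agent.Helper53.CTG.Small
import Pool.Agent.Helper57.CTG.FCS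
import Pool.Agent.Helper57.CTG.LSUB
import Pool.Agent.Helper63.CTG.LBG
import Pool.Agent.Helper67.CTG.FC0
import Pool.Agent.Helper71.CTG.VX
import Pool.Agent.Helper78.CTG.STP
import Pool.Agent.Helper79.CTG.FU
import Pool.Agent.Helper83.CTG.DI
import Pool.Agent.Helper85.CTG.PB
import Pool.Agent.Helper9.CTG.EE
import Pool.Agent.Helper90.CTG.KBC
import Pool.Agent.Helper93.CTG.LG
import Pool.Agent.Helper94.CTG.FC1
import Pool.Agent.Helper94.CTG.WFD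
import Pool.Agent.Helper98.CTG.GA9

/-!
# PROJECT CTG (MP_8b4d68_lc): assembly
-/

namespace Pool.Agent.Helper53.CTG

open Pool.Agent.Helper1.TE (USPACE NUnamb)
open Pool.Agent.Helper65.LinSpace (Ctx LS)

theorem blocks : Blocks := @Pool.Agent.Helper53.CTG.gRUN

theorem elem : Elem := @Pool.Agent.Helper24.CTG.gELE @blocks

theorem algOK : AlgOK :=
  @Pool.Agent.Helper53.CTG.gALG @blocks @elem @Pool.Agent.Helper33.CTG.gKBX @Pool.Agent.Helper90.CTG.gKBC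
    @Pool.Agent.Helper20.CTG.gKX @Pool.Agent.Helper26.CTG.gKC @Pool.Agent.Helper71.CTG.gVX

theorem ok9 : ∀ b W : ℕ, 1 ≤ b → 2 ^ (3 * b) ≤ W → OK9 (gadC b W) :=
  @Pool.Agent.Helper37.CTG.gEOK @Pool.Agent.Helper77.TE.gCO @Pool.Agent.Helper83.TE.gCL @Pool.Agent.Helper30.TE.gCD
    @Pool.Agent.Helper59.TE.gCE @Pool.Agent.Helper87.TE.gCSD
    @Pool.Agent.Helper53.CTG.gSHN @Pool.Agent.Helper98.CTG.gGA9 @Pool.Agent.Helper15.CTG.gGC9

theorem diOK : DIOK :=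
  @Pool.Agent.Helper83.CTG.gDI @Pool.Agent.Helper38.CTG.gDST @Pool.Agent.Helper53.CTG.gEFF @Pool.Agent.Helper53.CTG.DBD.gDBD
    @Pool.Agent.Helper94.CTG.gWFD @Pool.Agent.Helper53.CTG.gDES

theorem eeOK : EEOK :=
  @Pool.Agent.Helper9.CTG.gEE @Pool.Agent.Helper13.TE.gCT @Pool.Agent.Helper53.CTG.gSHN @Pool.Agent.Helper32.CTG.gEC
    @Pool.Agent.Helper53.CTG.gSET @Pool.Agent.Helper85.CTG.gPB

theorem stepOK : StepOK :=
  @Pool.Agent.Helper78.CTG.gSTP @Pool.Agent.Helper85.CTG.gPB @Pool.Agent.Helper94.CTG.gWFD @Pool.Agent.Helper53.CTG.gDES ok9 @diOK @eeOK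

theorem accOK : AccOK := @Pool.Agent.Helper51.CTG.gACC @Pool.Agent.Helper85.CTG.gPB @algOK ok9

theorem invStep : InvStep := by
  intro ok tst mal w x γ hγ hx
  by_cases h : x.mo = 6
  · exact @Pool.Agent.Helper41.CTG.gFI6 @Pool.Agent.Helper85.CTG.gPB stepOK accOK ok tst mal w x γ hγ hx h
  · exact @Pool.Agent.Helper53.CTG.gFI0 @Pool.Agent.Helper79.CTG.gFU ok tst mal w x γ hγ hx h

theorem malOK : MalOK := @Pool.Agent.Helper19.CTG.gFM @Pool.Agent.Helper53.CTG.gFI0 @Pool.Agent.Helper79.CTG.gFU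

theorem machOK : MachOK :=
  @Pool.Agent.Helper57.CTG.gFCS accOK @Pool.Agent.Helper67.CTG.gFC0
    (@Pool.Agent.Helper94.CTG.gFC1 @Pool.Agent.Helper85.CTG.gPB stepOK) malOK invStep

theorem fxOK : FXOK := @Pool.Agent.Helper4.CTG.gFX @Pool.Agent.Helper85.CTG.gPB stepOK invStep

theorem nunamb (ok : ℕ → ℕ → ℕ → ℕ → ℕ) (tst : ℕ → ℕ) (mal : ℕ) (w : List Bool) :
    NUnamb (machM ok tst mal) w :=
  @Pool.Agent.Helper22.CTG.gFUN @Pool.Agent.Helper85.CTG.gPB accOK fxOK invStep machOK ok tst mal w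

theorem boundOK : BoundOK :=
  @Pool.Agent.Helper16.CTG.gFB @Pool.Agent.Helper85.CTG.gPB @Pool.Agent.Helper94.CTG.gWFD ok9 @diOK

theorem lsOK : LSOK :=
  @Pool.Agent.Helper50.CTG.gLNX @Pool.Agent.Helper12.TE.gLCF @Pool.Agent.Helper44.CTG.gLN @Pool.Agent.Helper27.TE.gLSD
    @Pool.Agent.Helper53.TE.gLCT @Pool.Agent.Helper57.CTG.gLSUB @Pool.Agent.Helper63.CTG.gLBG

theorem main_space :
    (∀ C : ℕ, CallTree {x | x.2.1 * x.2.2.1 * Nat.log 2 x.2.2.1 ≤ C * x.1 ∧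
        x.2.2.2 ≤ C * x.2.1} ∈ USPACE (fun n => Real.log n) ∧
      (CallTree {x | x.2.1 * x.2.2.1 * Nat.log 2 x.2.2.1 ≤ C * x.1 ∧
        x.2.2.2 ≤ C * x.2.1})ᶜ ∈ USPACE (fun n => Real.log n)) ∧
    ∀ C : ℕ, CallTree {x | x.2.1 ^ 2 * Nat.log 2 x.2.2.1 ≤ C * x.1 ∧
        x.1 ≤ C * x.2.1 ^ 2 * (Nat.log 2 x.2.2.1 + 1)} ∈ USPACE s2 ∧
      (CallTree {x | x.2.1 ^ 2 * Nat.log 2 x.2.2.1 ≤ C * x.1 ∧
        x.1 ≤ C * x.2.1 ^ 2 * (Nat.log 2 x.2.2.1 + 1)})ᶜ ∈ USPACE s2 :=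
  @Pool.Agent.Helper47.CTG.gFIN
    (@Pool.Agent.Helper89.TE.gCOM @Pool.Agent.Helper84.TE.gXPR @Pool.Agent.Helper16.TE.gXBODY
      @Pool.Agent.Helper1.TE.round @Pool.Agent.Helper57.TE.gDT @Pool.Agent.Helper54.TE.gT2A
      @Pool.Agent.Helper48.TE.gT2B)
    lsOK machOK nunamb boundOK @Pool.Agent.Helper79.CTG.gFU @Pool.Agent.Helper93.CTG.gLG
    @Pool.Agent.Helper37.CTG.gAS1 @Pool.Agent.Helper42.CTG.gAS2 @Pool.Agent.Helper14.CTG.gAS3

end Pool.Agent.Helper53.CTG
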