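import Pool.Agent.Helper53.CTG.Defs
import Pool.Agent.Helper1.TE.Mach

/-!
# Call trees in unambiguous logarithmic space: the algorithm
-/

namespace Pool.Agent.Helper53.CTG

open Pool.Agent.Helper1.TE (Gad app cif)
open Finset

/-! ### Runs -/

/-- The state after `t` steps with the guesses `γ`. -/
def runs {S : Type} (step : ℕ → ℕ → S → Option S) (γ : ℕ → ℕ) : ℕ → S → Option S
  | 0, s => some s
  | t + 1, s => (runs step γ t s).bind (step t (γ t))

/-! ### Gadgets -/

section
variable {Z : Type}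

/-- Shift by all elements of a list. -/
def shl (g : Gad Z) (l : List ℕ) (z : Z) : Z := l.foldl (fun z a => g.sh a z) z

/-- The properties of a gadget whose items are read nine times: `un p` undoes `hd p` and nine shifts
by `p`; `sound9`: only if all nine guesses are right. -/
structure OK9 (g : Gad Z) : Prop where
  K_pos : 1 ≤ g.K
  hd_V : ∀ p < g.K, ∀ z, g.V z → g.V (g.hd p z)
  sh_V : ∀ p < g.K, ∀ z, g.V z → g.V (g.sh p z)
  un_V : ∀ p < g.K, ∀ z z', g.V z → g.un p z = some z' → g.V z'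
  ok9 : ∀ p < g.K, ∀ z, g.V z → g.un p (shl g (List.replicate 9 p) (g.hd p z)) = some z
  sound9 : ∀ p < g.K, ∀ l : List ℕ, l.length = 9 → (∀ a ∈ l, a < g.K) → ∀ z, g.V z →
    (g.un p (shl g l (g.hd p z))).isSome → ∀ a ∈ l, a = p
  one_le : 1 ≤ g.G
  st_hd : ∀ p < g.K, ∀ z, g.V z → g.st (g.hd p z) < g.G * (g.st z + 1)
  st_sh : ∀ p z, g.st (g.sh p z) = g.st z
  st_un : ∀ p z z', g.un p z = some z' → g.st z' = g.st z / g.G

end

/-! ### Guesses -/

/-- The guess with the parts `a, y, z < K`. -/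
def enc (K a y z : ℕ) : ℕ := a * K ^ 2 + y * K + z

/-- The first part of a guess. -/
def gA (K G : ℕ) : ℕ := G / K ^ 2
/-- The second part of a guess. -/
def gY (K G : ℕ) : ℕ := G / K % K
/-- The third part of a guess. -/
def gZ (K G : ℕ) : ℕ := G % K

/-- Nonzero if the guess `G` is allowed for the table `m`: the parts which are not needed are
zero. -/
def nrm (K m G : ℕ) : Prop := (m = 0 → G % K ^ 2 = 0) ∧ (m = 1 → G % K = 0)

instance (K m G : ℕ) : Decidable (nrm K m G) := by unfold nrm; infer_instance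

/-! ### Descriptors

A descriptor is `(k, m, e, f, v, i, T)`. The kind `k` is `0` for a recursive visit (of the node `v`;
the transformation with the code `T` is applied to the register `i` with the result; the visit of
the root has `m = 1`), and otherwise it is an elementary step:
`0` (with no digits left) leaf; `1` nothing; `2` apply `T` to the register `i` with the top argument;
`3, 4, 5` read the table `m` of the node `v`, with the item of the register `e` (read once), of the
register `f` if `m ≥ 1` (read once if `m = 1`, five times if `m = 2`) and of the register `f + 1` if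
`m = 2` (read nine times), and with the entry `w`: `3` apply `T` to the register `i` with `w`, `4`
push `w` (cut) on the stack of arguments, `5` test that `w` (cut) is the top argument and pop it.
The registers are `0, …, 3 q - 3` (along a block), `3 q, …, 3 q + 3` (results of block roots);
`3 q + 4` stands for the stack of arguments. -/

/-- Descriptors. -/
abbrev De := ℕ × ℕ × ℕ × ℕ × ℕ × ℕ × ℕ

/-- Kind. -/
def De.k (x : De) : ℕ := x.1
/-- Table. -/
def De.m (x : De) : ℕ := x.2.1
/-- Register of the argument. -/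
def De.e (x : De) : ℕ := x.2.2.1
/-- Register of the first result. -/
def De.f (x : De) : ℕ := x.2.2.2.1
/-- Node. -/
def De.v (x : De) : ℕ := x.2.2.2.2.1
/-- Register which is changed. -/
def De.i (x : De) : ℕ := x.2.2.2.2.2.1
/-- Transformation: `0` test, `1` hide, `2` undo. -/
def De.T (x : De) : ℕ := x.2.2.2.2.2.2

/-- Nothing. -/
def idle : De := (1, 0, 0, 0, 0, 0, 0)

/-- The visit of the node `v`. -/
def nod (v i T : ℕ) : De := (0, 0, 0, 0, v, i, T)

/-- Phase `d` of the visit of a block root (or of the root), with the register `e` for the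
argument. -/
def phV (e v i T d : ℕ) : De :=
  cif d (2, 0, 0, 0, 0, e, 1) (cif (d - 1) (nod v i T) (cif (d - 2) (2, 0, 0, 0, 0, e, 2) idle))

/-- Phase `d` of the visit of a node in a block; its argument is in the register `e`, the results of
its children come into the registers `f`, `f + 1`; `k₁, k₂` are the kinds of the steps which pass
an argument and which undo this, `j` is the register for that. -/
def ph (k₁ k₂ e f j v i T d : ℕ) : De :=
  cif d (k₁, 0, e, 0, v, j, 1)
  (cif (d - 1) (nod (2 * v) f 1)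
  (cif (d - 2) (k₂, 0, e, 0, v, j, 2)
  (cif (d - 3) (k₁, 1, e, f, v, j, 1)
  (cif (d - 4) (nod (2 * v + 1) (f + 1) 1)
  (cif (d - 5) (k₂, 1, e, f, v, j, 2)
  (cif (d - 6) (3, 2, e, f, v, i, T)
  (cif (d - 7) (k₁, 1, e, f, v, j, 1)
  (cif (d - 8) (nod (2 * v + 1) (f + 1) 2)
  (cif (d - 9) (k₂, 1, e, f, v, j, 2)
  (cif (d - 10) (k₁, 0, e, 0, v, j, 1)
  (cif (d - 11) (nod (2 * v) f 2)
  (k₂, 0, e, 0, v, j, 2))))))))))))

/-- Phase `d` of the visit of a node at the bottom of a block; `p` is the parity of the block. -/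
def phB (q p v i T d : ℕ) : De := ph 4 5 (3 * (q - 1)) (3 * q + 2 * p) (3 * q + 4) v i T d

/-- Phase `d` of the visit of another node of a block. -/
def phK (e v i T d : ℕ) : De := ph 3 3 e (e + 1) (e + 3) v i T d

/-- Phase `d` of `x`, if `n` digits of the time are left after `d`. -/
def sub (q : ℕ) (x : De) (n d : ℕ) : De :=
  cif x.k
    (cif x.m
      (cif (q - n % (q + 1)) (phV 0 x.v x.i x.T d)
        (cif (n % (q + 1)) (phB q (n / (q + 1) % 2) x.v x.i x.T d)
          (phK (3 * (q - 1 - n % (q + 1))) x.v x.i x.T d)))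
      (phV (3 * (q - n % (q + 1))) x.v x.i x.T d))
    (cif d x idle)

/-! ### Steps -/

section
variable {Z : Type}

/-- The registers after the reads for the table `m` with the guess `G`. -/
def rd (g : Gad Z) (m e f G : ℕ) (C : ℕ → Z) : ℕ → Z :=
  if m = 0 then Function.update C e (g.sh (gA g.K G) (C e))
  else if m = 1 then
    Function.update (Function.update C e (g.sh (gA g.K G) (C e))) f (g.sh (gY g.K G) (C f))
  else Function.update (Function.update (Function.update C e (g.sh (gA g.K G) (C e)))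
    f (shl g (List.replicate 5 (gY g.K G)) (C f)))
    (f + 1) (shl g (List.replicate 9 (gZ g.K G)) (C (f + 1)))

/-- The elementary step `x` with the guess `G` on the registers `s.1` and the stack of arguments
`s.2` (a number in base `2 ^ c`). Steps which do not need a guess have the guess `0`. -/
def exec (g : Gad Z) (tst : ℕ → ℕ) (t : ℕ → ℕ → ℕ → ℕ → ℕ → ℕ) (c : ℕ) (x : De) (G : ℕ)
    (s : (ℕ → Z) × ℕ) : Option ((ℕ → Z) × ℕ) :=
  if x.k = 0 then
    (if G = 0 then (app g tst x.T (t 2 x.v (s.2 % 2 ^ c) 0 0) (s.1 x.i)).map fun z =>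
      (Function.update s.1 x.i z, s.2) else none)
  else if x.k = 1 then (if G = 0 then some s else none)
  else if x.k = 2 then
    (if G = 0 then (app g tst x.T (s.2 % 2 ^ c) (s.1 x.i)).map fun z =>
      (Function.update s.1 x.i z, s.2) else none)
  else if nrm g.K x.m G then
    (if x.k = 3 then
      (app g tst x.T (t x.m x.v (gA g.K G) (gY g.K G) (gZ g.K G)) (s.1 x.i)).map fun z =>
        (Function.update (rd g x.m x.e x.f G s.1) x.i z, s.2)
    else if x.k = 4 then some (rd g x.m x.e x.f G s.1,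
      s.2 * 2 ^ c + t x.m x.v (gA g.K G) (gY g.K G) (gZ g.K G) % 2 ^ c)
    else if t x.m x.v (gA g.K G) (gY g.K G) (gZ g.K G) % 2 ^ c = s.2 % 2 ^ c then
      some (rd g x.m x.e x.f G s.1, s.2 / 2 ^ c)
    else none)
  else none

/-- The step at the time `τ < 13 ^ n` of `x` with the guess `G`. -/
def op (g : Gad Z) (tst : ℕ → ℕ) (t : ℕ → ℕ → ℕ → ℕ → ℕ → ℕ) (q c : ℕ) :
    (x : De) → (n τ G : ℕ) → (ℕ → Z) × ℕ → Option ((ℕ → Z) × ℕ)
  | x, 0, _, G, s => exec g tst t c x G s
  | x, n + 1, τ, G, s => op g tst t q c (sub q x n (τ / 13 ^ n)) n (τ % 13 ^ n) G s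

/-- The complete run of `x` with `n` digits with the guesses `γ`. -/
def Rn (g : Gad Z) (tst : ℕ → ℕ) (t : ℕ → ℕ → ℕ → ℕ → ℕ → ℕ) (q c : ℕ) (x : De) (n : ℕ)
    (γ : ℕ → ℕ) (s : (ℕ → Z) × ℕ) : Option ((ℕ → Z) × ℕ) :=
  runs (op g tst t q c x n) γ (13 ^ n) s

end

/-- The right guess at the time `τ` of the visit (with `n` digits) of the node `v` with the
argument `X`. -/
def can (K : ℕ) (t : ℕ → ℕ → ℕ → ℕ → ℕ → ℕ) (q c : ℕ) : (n v X τ : ℕ) → ℕ
  | 0, _, _, _ => 0
  | n + 1, v, X, τ =>
    if n % (q + 1) = q then (if τ / 13 ^ n = 1 then can K t q c n v X (τ % 13 ^ n) else 0)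
    else if τ / 13 ^ n = 1 ∨ τ / 13 ^ n = 11 then
      can K t q c n (2 * v) (cut q c (q * (n / (q + 1)) + n % (q + 1)) (t 0 v X 0 0))
        (τ % 13 ^ n)
    else if τ / 13 ^ n = 4 ∨ τ / 13 ^ n = 8 then
      can K t q c n (2 * v + 1) (cut q c (q * (n / (q + 1)) + n % (q + 1))
        (t 1 v X (ev t q c (q * (n / (q + 1)) + n % (q + 1)) (2 * v)
          (cut q c (q * (n / (q + 1)) + n % (q + 1)) (t 0 v X 0 0))) 0)) (τ % 13 ^ n)
    else if τ % 13 ^ n ≠ 0 then 0
    else if τ / 13 ^ n = 0 ∨ τ / 13 ^ n = 2 ∨ τ / 13 ^ n = 10 ∨ 12 ≤ τ / 13 ^ n then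
      enc K X 0 0
    else if τ / 13 ^ n = 6 then
      enc K X (ev t q c (q * (n / (q + 1)) + n % (q + 1)) (2 * v)
          (cut q c (q * (n / (q + 1)) + n % (q + 1)) (t 0 v X 0 0)))
        (ev t q c (q * (n / (q + 1)) + n % (q + 1)) (2 * v + 1)
          (cut q c (q * (n / (q + 1)) + n % (q + 1))
            (t 1 v X (ev t q c (q * (n / (q + 1)) + n % (q + 1)) (2 * v)
              (cut q c (q * (n / (q + 1)) + n % (q + 1)) (t 0 v X 0 0))) 0)))
    else enc K X (ev t q c (q * (n / (q + 1)) + n % (q + 1)) (2 * v)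
          (cut q c (q * (n / (q + 1)) + n % (q + 1)) (t 0 v X 0 0))) 0

/-! ### Depths -/

/-- The elementary step at the time `τ` of `x` with `n` digits. -/
def des (q : ℕ) : (x : De) → (n τ : ℕ) → De
  | x, 0, _ => x
  | x, n + 1, τ => des q (sub q x n (τ / 13 ^ n)) n (τ % 13 ^ n)

/-- The effect of `x` on the number of the hidden items in the register `j`. -/
def eff (x : De) (j : ℕ) : ℤ :=
  if j = x.i then (if x.T = 1 then 1 else if x.T = 2 then -1 else 0) else 0

/-- The number of the items hidden in `j` before the time `τ` of `x` (minus the number at the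
beginning). -/
def dep (q : ℕ) : (x : De) → (n τ j : ℕ) → ℤ
  | _, 0, _, _ => 0
  | x, n + 1, τ, j => (∑ d ∈ range (τ / 13 ^ n), eff (sub q x n d) j) +
      dep q (sub q x n (τ / 13 ^ n)) n (τ % 13 ^ n) j

/-- Well formed descriptors; `V` is a bound for the node. -/
structure WF (q V : ℕ) (x : De) : Prop where
  hk : x.k ≤ 5
  hm : x.m ≤ 2
  he : x.e ≤ 3 * q + 3
  hf : x.f + 1 ≤ 3 * q + 3
  hv : x.v < V
  hT : x.T ≤ 2
  hef : 3 ≤ x.k → 1 ≤ x.m → x.e ≠ x.f ∧ x.e ≠ x.f + 1
  h1 : x.k = 1 → x.T = 0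
  hi : (x.k = 4 ∧ x.i = 3 * q + 4 ∧ x.T = 1) ∨ (x.k = 5 ∧ x.i = 3 * q + 4 ∧ x.T = 2) ∨
    (x.k ≤ 3 ∧ x.i ≤ 3 * q + 3)

/-- Number of the blocks. -/
def Hb (N q : ℕ) : ℕ := (N - 1) / q + 1

/-- Number of the digits of the time. -/
def Nt (N q : ℕ) : ℕ := N + Hb N q

/-- The descriptor of the whole algorithm. -/
def root (N q : ℕ) : De := (0, 1, 0, 0, 1, 3 * q + 2 * (Hb N q % 2), 0)

/-- The descriptor after the first `t` of the `n` digits of `τ`. -/
def dec (q : ℕ) (x : De) (n τ : ℕ) : ℕ → De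
  | 0 => x
  | t + 1 => sub q (dec q x n τ t) (n - 1 - t) (τ / 13 ^ (n - 1 - t) % 13)

/-! ### Statements of the induction -/

section
variable {Z : Type} (g : Gad Z) (tst : ℕ → ℕ) (t : ℕ → ℕ → ℕ → ℕ → ℕ → ℕ) (q c : ℕ)

/-- The registers for the results of block roots with `m` blocks below. -/
def BR (m i : ℕ) : Prop := i = 3 * q + 2 * (m % 2) ∨ i = 3 * q + 2 * (m % 2) + 1

/-- Visits of block roots with `m` blocks below: exact, only with the right guesses. -/
def VX (m : ℕ) : Prop := ∀ (γ : ℕ → ℕ) (v i T : ℕ) (C : ℕ → Z) (A : ℕ) (s' : (ℕ → Z) × ℕ),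
  (∀ τ, γ τ < g.K ^ 3) → (∀ j, g.V (C j)) → BR q m i →
  (Rn g tst t q c (nod v i T) ((q + 1) * m) γ (C, A) = some s' ↔
    (∀ τ < 13 ^ ((q + 1) * m), γ τ = can g.K t q c ((q + 1) * m) v (A % 2 ^ c) τ) ∧
    ∃ z, app g tst T (ev t q c (q * m) v (A % 2 ^ c)) (C i) = some z ∧
      s' = (Function.update C i z, A))

/-- Visits of nodes at height `u ≥ 1` in a block with `m` blocks below, whose argument `x` is hidden in
the register `e = 3 (q - u)`: in every complete run the registers below `e` do not change; and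
if `x` can be undone in `e` after the run then the run has the right guesses and is exact. -/
def KX (m u : ℕ) : Prop := ∀ (γ : ℕ → ℕ) (v i T : ℕ) (C : ℕ → Z) (A x : ℕ) (z₀ : Z)
  (s' : (ℕ → Z) × ℕ), (∀ τ, γ τ < g.K ^ 3) → (∀ j, g.V (C j)) → x < g.K → g.V z₀ →
  C (3 * (q - u)) = g.hd x z₀ → (i < 3 * (q - u) ∨ BR q (m + 1) i) →
  Rn g tst t q c (nod v i T) ((q + 1) * m + u) γ (C, A) = some s' →
    s'.2 = A ∧ (∀ j, g.V (s'.1 j)) ∧ (∀ j < 3 * (q - u), j ≠ i → s'.1 j = C j) ∧
    ((g.un x (s'.1 (3 * (q - u)))).isSome →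
      (∀ τ < 13 ^ ((q + 1) * m + u), γ τ = can g.K t q c ((q + 1) * m + u) v x τ) ∧
      ∃ z, app g tst T (ev t q c (q * m + u) v x) (C i) = some z ∧
        s'.1 = Function.update (Function.update C i z) (3 * (q - u))
          (shl g (List.replicate 9 x) (C (3 * (q - u)))))

/-- Visits of nodes at height `u ≥ 1` in a block with `m` blocks below: the run with the right
guesses. -/
def KC (m u : ℕ) : Prop := ∀ (γ : ℕ → ℕ) (v i T : ℕ) (C : ℕ → Z) (A x : ℕ) (z : Z),
  (∀ j, g.V (C j)) → (i < 3 * (q - u) ∨ BR q (m + 1) i) → x < g.K →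
  (∀ τ < 13 ^ ((q + 1) * m + u), γ τ = can g.K t q c ((q + 1) * m + u) v x τ) →
  app g tst T (ev t q c (q * m + u) v x) (C i) = some z →
  Rn g tst t q c (nod v i T) ((q + 1) * m + u) γ (C, A) =
    some (Function.update (Function.update C i z) (3 * (q - u))
      (shl g (List.replicate 9 x) (C (3 * (q - u)))), A)

end

end Pool.Agent.Helper53.CTG
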