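import Pool.Agent.Helper1.TE.Defs

/-!
# Call trees in unambiguous logarithmic space: definitions used in the statement
-/

namespace Pool.Agent.Helper53.CTG

open Pool.Agent.Helper1.TE (word)

/-- The argument of a call of a node of height `n`: at the heights which are divisible by `q` only
the last `c` bits are passed. -/
def cut (q c n x : ℕ) : ℕ := if n % q = 0 then x % 2 ^ c else x

/-- The result of the node `v` of height `n` with the argument `x`: the node calls its left child
`2 v` with the argument `t 0 v x 0 0`, which returns `y`, then its right child `2 v + 1` with the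
argument `t 1 v x y 0`, which returns `z`, and then it returns `t 2 v x y z`. The arguments are cut
as in `cut`. A leaf returns `t 2 v x 0 0`. -/
def ev (t : ℕ → ℕ → ℕ → ℕ → ℕ → ℕ) (q c : ℕ) : ℕ → ℕ → ℕ → ℕ
  | 0, v, x => t 2 v x 0 0
  | n + 1, v, x =>
    t 2 v x (ev t q c n (2 * v) (cut q c n (t 0 v x 0 0)))
      (ev t q c n (2 * v + 1)
        (cut q c n (t 1 v x (ev t q c n (2 * v) (cut q c n (t 0 v x 0 0))) 0)))

/-- The tables `m = 0, 1, 2` of the node `j` in the word `v`: each has `8 ^ b` entries of `b` bits,
the entry for `x, y, z` is at the place `4 ^ b x + 2 ^ b y + z`. Missing letters are read as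
zeros. -/
def tabV (b : ℕ) (v : List Bool) (m j x y z : ℕ) : ℕ :=
  word v (((3 * j + m) * 8 ^ b + (4 ^ b * x + 2 ^ b * y + z)) * b) b

/-- The result of the root (node `1`, height `N`) with the argument `0`. -/
def rootV (N q b c : ℕ) (v : List Bool) : ℕ := ev (tabV b v) q c N 1 0

/-- The call tree problem for the parameters `(N, q, b, c)` in `D`: words
`1^N 0 1^q 0 1^b 0 1^c 0 v` of length more than `2 ^ (N + b)` with `1 ≤ q ≤ N`, `1 ≤ b`, `c ≤ b`, such
that the call tree of height `N` with arguments and results of `b` bits (`c` bits for the arguments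
at the heights divisible by `q`), and with the tables in `v`, returns `1`. -/
def CallTree (D : Set (ℕ × ℕ × ℕ × ℕ)) : Set (List Bool) :=
  {w | ∃ (N q b c : ℕ) (v : List Bool), 1 ≤ q ∧ q ≤ N ∧ 1 ≤ b ∧ c ≤ b ∧ (N, q, b, c) ∈ D ∧
    2 ^ (N + b) < w.length ∧ rootV N q b c v = 1 ∧
    w = List.replicate N true ++ false :: (List.replicate q true ++ false ::
      (List.replicate b true ++ false :: (List.replicate c true ++ false :: v)))}

end Pool.Agent.Helper53.CTG
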