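import Pool.Agent.Helper53.CTG.Alg

/-!
# Call trees in unambiguous logarithmic space: gadget and machine
-/

namespace Pool.Agent.Helper53.CTG

open Pool.Agent.Helper65.LinSpace (dig tab nrec ifz eq01 le01 lt01 capPow)
open Pool.Agent.Helper1.TE (Gad app cif ctab bitc seed wN vN addm NumMach codeB)
open Finset

/-! ### The numeric gadget -/

section gadget

variable (c : ℕ → ℕ → ℕ) (m L R : ℕ)

/-- Nine backward shifts; `L` is the bound for nine distances. -/
def ush9 (p X : ℕ) : ℕ :=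
  tab (L + R) (m + 2) fun i => (dig (L + R) X i + 9 * (L + R - vN c m p i)) % (L + R)

/-- `al` shifts. -/
def shN (al p X : ℕ) : ℕ :=
  tab (L + R) (m + 2) fun i => (dig (L + R) X i + al * vN c m p i) % (L + R)

/-- The gadget of the vectors `c p`; the modulus is `L + R`, where `L` is nine times the bound for
distances and norms. -/
def gad9 (K : ℕ) : Gad (ℕ × ℕ) where
  K := K
  G := (L + R) / R + 1
  hd p z := (addm m L R z.1 (R * (wN c m L R p z.1 / R)),
    ((L + R) / R + 1) * z.2 + wN c m L R p z.1 / R)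
  sh p z := (shN c m L R 1 p z.1, z.2)
  un p z :=
    if wN c m L R p (ush9 c m L R p z.1) < R then
      some (addm m L R (ush9 c m L R p z.1) (L + R - R * (z.2 % ((L + R) / R + 1))),
        z.2 / ((L + R) / R + 1))
    else none
  V z := z.1 < (L + R) ^ (m + 2)
  st z := z.2

end gadget

/-! ### Parameters -/

/-- Distance. -/
def Rb (b : ℕ) : ℕ := (b + 3) / 4

/-- The modulus. -/
def Pb (b : ℕ) : ℕ := 36 * b + Rb b

/-- The base of the stacks. -/
def Gb (b : ℕ) : ℕ := Pb b / Rb b + 1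

/-- Bits of a content. -/
def Eb (b : ℕ) : ℕ := (4 * b + 2) * (Nat.log 2 (Pb b) + 1)

/-- Bits of a stack. -/
def Fb (N q b : ℕ) : ℕ := (Hb N q + 1) * (Nat.log 2 (Gb b) + 1)

/-- `log₂` of the budget. -/
def Et (N q b c : ℕ) : ℕ :=
  (3 * q + 4) * (Eb b + Fb N q b) + 4 * Nt N q + 4 * b + c * (Hb N q + 2) + 4

/-! ### Numeric functions; `W` is a bound -/

/-- The vectors. -/
def cC (b W p i : ℕ) : ℕ := bitc b (seed b W) p i

/-- The functional. -/
def wC (b W p X : ℕ) : ℕ := wN (cC b W) (4 * b) (36 * b) (Rb b) p X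

/-- `al` shifts. -/
def shC (b W al p X : ℕ) : ℕ :=
  ctab W (Pb b) (4 * b + 2) fun i => (dig (Pb b) X i + al * vN (cC b W) (4 * b) p i) % Pb b

/-- Nine backward shifts. -/
def ushC (b W p X : ℕ) : ℕ :=
  ctab W (Pb b) (4 * b + 2) fun i =>
    (dig (Pb b) X i + 9 * (Pb b - vN (cC b W) (4 * b) p i)) % Pb b

/-- Change of the coordinate `4 b`. -/
def addC (b W X y : ℕ) : ℕ :=
  ctab W (Pb b) (4 * b + 2) fun i =>
    ifz (eq01 i (4 * b)) (dig (Pb b) X i) ((dig (Pb b) X (4 * b) + y) % Pb b)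

/-- Test for a transformation of a content `X`. -/
def apT (tst : ℕ → ℕ) (b W T v X : ℕ) : ℕ :=
  ifz T (tst v) (ifz (T - 1) 1 (lt01 (wC b W v (ushC b W v X)) (Rb b)))

/-- Transformation of the content `X` with the stack `S`: the new content. -/
def apX (b W T v X S : ℕ) : ℕ :=
  ifz T X (ifz (T - 1) (addC b W X (Rb b * (wC b W v X / Rb b)))
    (addC b W (ushC b W v X) (Pb b - Rb b * (S % Gb b))))

/-- Transformation of the content `X` with the stack `S`: the new stack. -/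
def apS (b W T v X S : ℕ) : ℕ :=
  ifz T S (ifz (T - 1) (Gb b * S + wC b W v X / Rb b) (S / Gb b))

/-- Change of the digit number `j` of a number `X` with `m` digits in base `2 ^ e`. -/
def setD (W e m X j y : ℕ) : ℕ :=
  ctab W (capPow 2 e W) m fun i => ifz (eq01 i j) (dig (capPow 2 e W) X i) y

/-- The digit number `j`. -/
def getD (W e X j : ℕ) : ℕ := dig (capPow 2 e W) X j

/-- `1` for the kinds `3, 4, 5`. -/
def rdK (k : ℕ) : ℕ := le01 3 k

/-- Number of the reads of the first register. -/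
def alK (k : ℕ) : ℕ := rdK k

/-- Number of the reads of the second register. -/
def beK (k m : ℕ) : ℕ := rdK k * ifz m 0 (ifz (m - 1) 1 5)

/-- Number of the reads of the third register. -/
def gaK (k m : ℕ) : ℕ := rdK k * ifz m 0 (ifz (m - 1) 0 9)

/-- `1` if the guess `G` is allowed: no part which is not needed. -/
def gokK (b k m G : ℕ) : ℕ :=
  ifz (rdK k) (eq01 G 0) (ifz m (eq01 (G % 2 ^ (2 * b)) 0) (ifz (m - 1) (eq01 (G % 2 ^ b) 0) 1))

/-- `1` for the kinds `0, 2, 3` (steps which apply a transformation). -/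
def actK (k : ℕ) : ℕ := ifz (eq01 k 1) (le01 k 3) 0

/-- The value for the transformation or the stack; `A` is the stack of arguments, `w` the entry of
the table. -/
def valK (k c A w : ℕ) : ℕ := ifz (eq01 k 2) w (A % 2 ^ c)

section big

variable (tst : ℕ → ℕ) (N q b c W : ℕ) (D : De) (G w X S A : ℕ)

/-- The contents after the first read. -/
def bigR1 : ℕ :=
  setD W (Eb b) (3 * q + 4) X D.e (shC b W (alK D.k) (G / 2 ^ (2 * b)) (getD W (Eb b) X D.e))

/-- The contents after the second read. -/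
def bigR2 : ℕ :=
  setD W (Eb b) (3 * q + 4) (bigR1 q b W D G X) D.f
    (shC b W (beK D.k D.m) (G / 2 ^ b % 2 ^ b) (getD W (Eb b) (bigR1 q b W D G X) D.f))

/-- The contents after the third read. -/
def bigR3 : ℕ :=
  setD W (Eb b) (3 * q + 4) (bigR2 q b W D G X) (D.f + 1)
    (shC b W (gaK D.k D.m) (G % 2 ^ b) (getD W (Eb b) (bigR2 q b W D G X) (D.f + 1)))

/-- Test of the step. -/
def bigT : ℕ :=
  gokK b D.k D.m G *
    ifz (actK D.k) (ifz (eq01 D.k 5) 1 (eq01 (w % 2 ^ c) (A % 2 ^ c)))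
      (apT tst b W D.T (valK D.k c A w) (getD W (Eb b) X D.i))

/-- The contents after the step. -/
def bigX : ℕ :=
  ifz (actK D.k) (bigR3 q b W D G X)
    (setD W (Eb b) (3 * q + 4) (bigR3 q b W D G X) D.i
      (apX b W D.T (valK D.k c A w) (getD W (Eb b) X D.i) (getD W (Fb N q b) S D.i)))

/-- The stacks after the step. -/
def bigS : ℕ :=
  ifz (actK D.k) S
    (setD W (Fb N q b) (3 * q + 4) S D.i
      (apS b W D.T (valK D.k c A w) (getD W (Eb b) X D.i) (getD W (Fb N q b) S D.i)))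

/-- The stack of arguments after the step. -/
def bigA : ℕ :=
  ifz (eq01 D.k 4) (ifz (eq01 D.k 5) A (A / 2 ^ c)) (A * capPow 2 c W + w % 2 ^ c)

/-- The block which is read. -/
def blkM (g : ℕ) : ℕ :=
  ifz D.k ((3 * D.v + 2) * capPow 8 b W + capPow 4 b W * (A % 2 ^ c))
    ((3 * D.v + D.m) * capPow 8 b W + g)

end big

/-! ### The machine -/

/-- States: mode, `N, q, b, c`, counter, power of two; time, guess, letters; descriptor; contents,
stacks, arguments. -/
abbrev Sta := (ℕ × ℕ × ℕ × ℕ × ℕ × ℕ × ℕ) × (ℕ × ℕ × ℕ) × De × (ℕ × ℕ × ℕ)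

/-- The mode. -/
def Sta.mo (x : Sta) : ℕ := x.1.1
/-- The height. -/
def Sta.N (x : Sta) : ℕ := x.1.2.1
/-- The height of a block. -/
def Sta.q (x : Sta) : ℕ := x.1.2.2.1
/-- The number of bits. -/
def Sta.b (x : Sta) : ℕ := x.1.2.2.2.1
/-- The number of bits of arguments of block roots. -/
def Sta.c (x : Sta) : ℕ := x.1.2.2.2.2.1
/-- The counter. -/
def Sta.u (x : Sta) : ℕ := x.1.2.2.2.2.2.1
/-- The power. -/
def Sta.W (x : Sta) : ℕ := x.1.2.2.2.2.2.2
/-- The time. -/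
def Sta.τ (x : Sta) : ℕ := x.2.1.1
/-- The guess. -/
def Sta.g (x : Sta) : ℕ := x.2.1.2.1
/-- The letters read. -/
def Sta.t (x : Sta) : ℕ := x.2.1.2.2
/-- The descriptor. -/
def Sta.D (x : Sta) : De := x.2.2.1
/-- The contents. -/
def Sta.X (x : Sta) : ℕ := x.2.2.2.1
/-- The stacks. -/
def Sta.S (x : Sta) : ℕ := x.2.2.2.2.1
/-- The stack of arguments. -/
def Sta.A (x : Sta) : ℕ := x.2.2.2.2.2

/-- The state with empty second part. -/
def hdr (mo N q b c u W : ℕ) : Sta :=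
  ((mo, N, q, b, c, u, W), (0, 0, 0), (0, 0, 0, 0, 0, 0, 0), (0, 0, 0))

/-- The state in the main loop. -/
def mainS (N q b c u W τ g t : ℕ) (D : De) (X S A : ℕ) : Sta :=
  ((6, N, q, b, c, u, W), (τ, g, t), D, (X, S, A))

/-- The rejecting state. -/
def rejS : Sta := hdr 8 0 0 0 0 0 0

/-- The accepting state. -/
def accS : Sta := hdr 7 0 0 0 0 0 0

/-- The address of the letter which is read. -/
def addrM (x : Sta) : ℕ :=
  ifz x.mo x.N
  (ifz (x.mo - 1) (x.N + 1 + x.q)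
  (ifz (x.mo - 2) (x.N + x.q + 2 + x.b)
  (ifz (x.mo - 3) (x.N + x.q + x.b + 3 + x.c)
  (ifz (x.mo - 4) x.W
    (x.N + x.q + x.b + x.c + 4 + blkM x.b x.c x.W x.D x.A x.g * x.b +
      (x.u - (Nt x.N x.q + 3 * x.b)))))))

/-- `1` if a bit is guessed in this state. -/
def gqM (x : Sta) : ℕ :=
  eq01 x.mo 6 * le01 (Nt x.N x.q) x.u * lt01 x.u (Nt x.N x.q + 3 * x.b)

/-- The result for words which are not well formed. -/
def malS (mal : ℕ) : Sta := cif mal rejS accS

/-- The next state; `y` is the code of the letter (`0` none, `1` false, `2` true), `γ` is the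
guessed bit, `ok` tests the parameters, `tst` the value of the root, and `mal` says if all other
words are accepted. -/
def nextN (ok : ℕ → ℕ → ℕ → ℕ → ℕ) (tst : ℕ → ℕ) (mal : ℕ) (x : Sta) (y γ : ℕ) : Sta :=
  cif x.mo
    (cif y (malS mal) (cif (y - 1) (hdr 1 x.N 0 0 0 0 0) (hdr 0 (x.N + 1) 0 0 0 0 0)))
  (cif (x.mo - 1)
    (cif y (malS mal) (cif (y - 1) (hdr 2 x.N x.q 0 0 0 0) (hdr 1 x.N (x.q + 1) 0 0 0 0)))
  (cif (x.mo - 2)
    (cif y (malS mal) (cif (y - 1) (hdr 3 x.N x.q x.b 0 0 0) (hdr 2 x.N x.q (x.b + 1) 0 0 0)))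
  (cif (x.mo - 3)
    (cif y (malS mal) (cif (y - 1)
      (cif (x.q * le01 x.q x.N * x.b * le01 x.c x.b * ok x.N x.q x.b x.c) (malS mal)
        (hdr 4 x.N x.q x.b x.c 0 1))
      (hdr 3 x.N x.q x.b (x.c + 1) 0 0)))
  (cif (x.mo - 4)
    (cif y (malS mal)
      (cif (x.N + x.b - x.u) (hdr 5 x.N x.q x.b x.c 0 1)
        (hdr 4 x.N x.q x.b x.c (x.u + 1) (2 * x.W))))
  (cif (x.mo - 5)
    (cif (Et x.N x.q x.b x.c - x.u)
      (mainS x.N x.q x.b x.c 0 x.W 0 0 0 (root x.N x.q) 0 0 0)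
      (hdr 5 x.N x.q x.b x.c (x.u + 1) (2 * x.W)))
  (cif (x.mo - 6)
    (cif (Nt x.N x.q - x.u)
      (cif (Nt x.N x.q + 3 * x.b - x.u)
        (cif (Nt x.N x.q + 4 * x.b - x.u)
          (cif (bigT tst x.b x.c x.W x.D x.g x.t x.X x.A) rejS
            (cif ((x.τ + 1) / 13 ^ Nt x.N x.q)
              (mainS x.N x.q x.b x.c 0 x.W (x.τ + 1) 0 0 (root x.N x.q)
                (bigX x.N x.q x.b x.c x.W x.D x.g x.t x.X x.S x.A)
                (bigS x.N x.q x.b x.c x.W x.D x.t x.X x.S x.A)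
                (bigA x.c x.W x.D x.t x.A))
              accS))
          (mainS x.N x.q x.b x.c (x.u + 1) x.W x.τ x.g (2 * x.t + (y - 1)) x.D x.X x.S x.A))
        (mainS x.N x.q x.b x.c (x.u + 1) x.W x.τ (2 * x.g + γ) x.t x.D x.X x.S x.A))
      (mainS x.N x.q x.b x.c (x.u + 1) x.W x.τ x.g x.t
        (sub x.q x.D (Nt x.N x.q - 1 - x.u) (dig 13 x.τ (Nt x.N x.q - 1 - x.u)))
        x.X x.S x.A))
    x))))))

/-- The next state; the bit `1` is allowed only if a bit is guessed. -/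
def nextM (ok : ℕ → ℕ → ℕ → ℕ → ℕ) (tst : ℕ → ℕ) (mal : ℕ) (x : Sta) (y γ : ℕ) : Sta :=
  cif (γ * (1 - gqM x)) (nextN ok tst mal x y γ) (cif (eq01 x.mo 7) rejS x)

/-- The machine. -/
def machM (ok : ℕ → ℕ → ℕ → ℕ → ℕ) (tst : ℕ → ℕ) (mal : ℕ) : NumMach Sta where
  start := hdr 0 0 0 0 0 0 0
  addr := addrM
  next := nextM ok tst mal
  acc x := eq01 x.mo 7

end Pool.Agent.Helper53.CTG
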