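import Pool.Agent.Helper53.CTG.Mach

/-!
# Call trees: basic lemmas on runs
-/

namespace Pool.Agent.Helper53.CTG

section
variable {S : Type} {step step' : ℕ → ℕ → S → Option S} {γ γ' : ℕ → ℕ}

theorem runs_zero (x : S) : runs step γ 0 x = some x := rfl

theorem runs_succ (t : ℕ) (x : S) :
    runs step γ (t + 1) x = (runs step γ t x).bind (step t (γ t)) := rfl

theorem runs_one (x : S) : runs step γ 1 x = step 0 (γ 0) x := rfl

theorem runs_add (s t : ℕ) (x : S) : runs step γ (s + t) x =
    (runs step γ s x).bind (runs (fun τ => step (s + τ)) (fun τ => γ (s + τ)) t) := by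
  induction t with
  | zero => cases h : runs step γ s x <;> simp [h, runs]
  | succ t ih =>
    rw [← add_assoc, runs_succ, ih]
    cases runs step γ s x <;> simp [runs_succ]

theorem runs_congr {t : ℕ} {x : S} (h : ∀ τ < t, step τ (γ τ) = step' τ (γ' τ)) :
    runs step γ t x = runs step' γ' t x := by
  induction t with
  | zero => rfl
  | succ t ih => rw [runs_succ, runs_succ, ih fun τ hτ => h τ (by omega), h t (by omega)]

theorem runs_add_eq_some {s t : ℕ} {x y : S} : runs step γ (s + t) x = some y ↔
    ∃ z, runs step γ s x = some z ∧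
      runs (fun τ => step (s + τ)) (fun τ => γ (s + τ)) t z = some y := by
  rw [runs_add, Option.bind_eq_some_iff]

theorem runs_succ_eq_some {t : ℕ} {x y : S} : runs step γ (t + 1) x = some y ↔
    ∃ z, runs step γ t x = some z ∧ step t (γ t) z = some y := by
  rw [runs_succ, Option.bind_eq_some_iff]

/-- A run in `m` blocks of length `t`. -/
theorem runs_blocks (t : ℕ) : ∀ (m : ℕ) (x y : S), runs step γ (m * t) x = some y ↔
    ∃ f : ℕ → S, f 0 = x ∧ f m = y ∧ ∀ d < m,
      runs (fun τ => step (d * t + τ)) (fun τ => γ (d * t + τ)) t (f d) = some (f (d + 1)) := by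
  intro m
  induction m with
  | zero =>
    intro x y
    rw [Nat.zero_mul, runs_zero]
    constructor
    · intro h
      exact ⟨fun _ => x, rfl, by simpa using h, fun d hd => absurd hd (by omega)⟩
    · rintro ⟨f, h0, h1, -⟩
      rw [← h0, ← h1]
  | succ m ih =>
    intro x y
    rw [Nat.succ_mul, runs_add_eq_some]
    constructor
    · rintro ⟨z, h1, h2⟩
      obtain ⟨f, hf0, hfm, hf⟩ := (ih x z).1 h1
      refine ⟨fun d => if d ≤ m then f d else y, by simp [hf0], by simp, fun d hd => ?_⟩
      rcases Nat.lt_or_ge d m with h | h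
      · simp only [show d ≤ m by omega, show d + 1 ≤ m by omega, if_true]
        exact hf d h
      · obtain rfl : d = m := by omega
        simp only [le_refl, if_true, show ¬ d + 1 ≤ d by omega, if_false]
        rw [hfm]; exact h2
    · rintro ⟨f, hf0, hfm, hf⟩
      refine ⟨f m, (ih x (f m)).2 ⟨f, hf0, rfl, fun d hd => hf d (by omega)⟩, ?_⟩
      rw [← hfm]; exact hf m (by omega)

end

end Pool.Agent.Helper53.CTG
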